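import Mathlib

/-!
# Context-free grammars and their interpretations: closure properties of grammatical families
-/

set_option autoImplicit false

namespace Pool.Agent.Q314.GF

open Relation

variable {N T : Type}

/-- A derivation step of the context-free grammar with productions `P`; `Sum.inl A` is the
nonterminal `A` and `Sum.inr a` the terminal `a`. -/
def Step (P : Set (N × List (N ⊕ T))) (u v : List (N ⊕ T)) : Prop :=
  ∃ (p q : List (N ⊕ T)) (A : N) (γ : List (N ⊕ T)), (A, γ) ∈ P ∧ u = p ++ [Sum.inl A] ++ q ∧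
    v = p ++ γ ++ q

/-- The language generated by the context-free grammar with productions `P` from `S`. -/
def Lg (P : Set (N × List (N ⊕ T))) (S : N) : Set (List T) :=
  {w | ReflTransGen (Step P) [Sum.inl S] (w.map Sum.inr)}

/-- Terminal words obtained from a sentential form. -/
inductive Yld (P : Set (N × List (N ⊕ T))) : List (N ⊕ T) → List T → Prop
  | nil : Yld P [] []
  | ter (x : T) {β : List (N ⊕ T)} {w : List T} (h : Yld P β w) : Yld P (.inr x :: β) (x :: w)
  | nt {B : N} {γ β : List (N ⊕ T)} {v w : List T} (hr : (B, γ) ∈ P) (h1 : Yld P γ v)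
      (h2 : Yld P β w) : Yld P (.inl B :: β) (v ++ w)

variable {P Q : Set (N × List (N ⊕ T))}

theorem Yld.append {α β : List (N ⊕ T)} {v w : List T} (h1 : Yld P α v) (h2 : Yld P β w) :
    Yld P (α ++ β) (v ++ w) := by
  induction h1 with
  | nil => exact h2
  | ter x _ ih => exact .ter x ih
  | nt hr h _ _ ih =>
    rw [List.cons_append, List.append_assoc]
    exact .nt hr h ih

theorem Yld.append_inv {α β : List (N ⊕ T)} {w : List T} (h : Yld P (α ++ β) w) :
    ∃ w1 w2, w = w1 ++ w2 ∧ Yld P α w1 ∧ Yld P β w2 := by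
  induction α generalizing w with
  | nil => exact ⟨[], w, rfl, .nil, h⟩
  | cons a α ih =>
    rw [List.cons_append] at h
    cases h with
    | ter x h =>
      obtain ⟨w1, w2, rfl, h1, h2⟩ := ih h
      exact ⟨x :: w1, w2, rfl, .ter x h1, h2⟩
    | nt hr h1 h =>
      obtain ⟨w1, w2, rfl, h3, h4⟩ := ih h
      exact ⟨_ ++ w1, w2, by simp, .nt hr h1 h3, h4⟩

theorem Yld.mono (hPQ : P ⊆ Q) {α : List (N ⊕ T)} {w : List T} (h : Yld P α w) : Yld Q α w := by
  induction h with
  | nil => exact .nil
  | ter x _ ih => exact .ter x ih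
  | nt hr _ _ ih1 ih2 => exact .nt (hPQ hr) ih1 ih2

theorem yld_terminal (w : List T) : Yld P (w.map Sum.inr) w := by
  induction w with
  | nil => exact .nil
  | cons x w ih => exact .ter x ih

theorem Yld.terminal_inv {w v : List T} (h : Yld P (w.map Sum.inr) v) : v = w := by
  induction w generalizing v with
  | nil => cases h; rfl
  | cons x w ih =>
    rw [List.map_cons] at h
    cases h with
    | ter x h => rw [ih h]

theorem yld_single {B : N} {w : List T} :
    Yld P [Sum.inl B] w ↔ ∃ γ, (B, γ) ∈ P ∧ Yld P γ w := by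
  constructor
  · intro h
    generalize hα : [Sum.inl B] = α at h
    cases h with
    | nil => simp at hα
    | ter x h => simp at hα
    | nt hr h1 h2 =>
      simp only [List.cons.injEq, Sum.inl.injEq] at hα
      obtain ⟨rfl, rfl⟩ := hα
      cases h2
      rw [List.append_nil]
      exact ⟨_, hr, h1⟩
  · rintro ⟨γ, h, h1⟩
    have := Yld.nt h h1 .nil
    rwa [List.append_nil] at this

theorem derives_of_yld {α : List (N ⊕ T)} {w : List T} (h : Yld P α w) :
    ReflTransGen (Step P) α (w.map Sum.inr) := by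
  have left : ∀ {u v : List (N ⊕ T)} (p : List (N ⊕ T)), ReflTransGen (Step P) u v →
      ReflTransGen (Step P) (p ++ u) (p ++ v) := by
    intro u v p h
    induction h with
    | refl => exact .refl
    | tail _ h ih =>
      obtain ⟨p', q, A, γ, hr, rfl, rfl⟩ := h
      exact ih.tail ⟨p ++ p', q, A, γ, hr, by simp, by simp⟩
  have right : ∀ {u v : List (N ⊕ T)} (q : List (N ⊕ T)), ReflTransGen (Step P) u v →
      ReflTransGen (Step P) (u ++ q) (v ++ q) := by
    intro u v q h
    induction h with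
    | refl => exact .refl
    | tail _ h ih =>
      obtain ⟨p', q', A, γ, hr, rfl, rfl⟩ := h
      exact ih.tail ⟨p', q' ++ q, A, γ, hr, by simp, by simp⟩
  induction h with
  | nil => exact .refl
  | ter x _ ih => exact left [Sum.inr x] ih
  | @nt B γ β v w hr h1 h2 ih1 ih2 =>
    rw [List.map_append]
    have s1 : ReflTransGen (Step P) (Sum.inl B :: β) (γ ++ β) :=
      .single ⟨[], β, B, γ, hr, rfl, rfl⟩
    exact (s1.trans (right β ih1)).trans (left _ ih2)

theorem yld_of_derives {α : List (N ⊕ T)} {w : List T}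
    (h : ReflTransGen (Step P) α (w.map Sum.inr)) : Yld P α w := by
  induction h using ReflTransGen.head_induction_on with
  | refl => exact yld_terminal w
  | head h _ ih =>
    obtain ⟨p, q, A, γ, hr, rfl, rfl⟩ := h
    obtain ⟨w1, w2, rfl, h1, h2⟩ := ih.append_inv
    obtain ⟨w3, w4, rfl, h3, h4⟩ := h1.append_inv
    exact (h3.append (yld_single.2 ⟨γ, hr, h4⟩)).append h2

theorem mem_Lg {S : N} {w : List T} : w ∈ Lg P S ↔ Yld P [Sum.inl S] w :=
  ⟨yld_of_derives, derives_of_yld⟩

theorem Lg_mono (hPQ : P ⊆ Q) (S : N) : Lg P S ⊆ Lg Q S := fun _ hw =>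
  mem_Lg.2 ((mem_Lg.1 hw).mono hPQ)

/-! ### Semantics -/

/-- concatenation of the meanings of the symbols -/
def Cat (s : N → Set (List T)) : List (N ⊕ T) → Set (List T)
  | [] => {[]}
  | .inr x :: β => {w | ∃ v ∈ Cat s β, w = x :: v}
  | .inl B :: β => {w | ∃ u ∈ s B, ∃ v ∈ Cat s β, w = u ++ v}

theorem Yld.cat {s : N → Set (List T)} (h : ∀ B γ, (B, γ) ∈ P → Cat s γ ⊆ s B)
    {β : List (N ⊕ T)} {w : List T} (hw : Yld P β w) : w ∈ Cat s β := by
  induction hw with
  | nil => exact rfl
  | ter x _ ih => exact ⟨_, ih, rfl⟩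
  | nt hr _ _ ih1 ih2 => exact ⟨_, h _ _ hr ih1, _, ih2, rfl⟩

theorem yld_of_cat {s : N → Set (List T)} (h : ∀ B, ∀ w ∈ s B, Yld P [Sum.inl B] w)
    {β : List (N ⊕ T)} : ∀ {w : List T}, w ∈ Cat s β → Yld P β w := by
  induction β with
  | nil =>
    intro w hw
    have : w = [] := hw
    subst this
    exact .nil
  | cons a β ih =>
    intro w hw
    cases a with
    | inr x =>
      obtain ⟨v, hv, rfl⟩ := hw
      exact .ter x (ih hv)
    | inl B =>
      obtain ⟨u, hu, v, hv, rfl⟩ := hw
      exact (h B u hu).append (ih hv)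

/-! ### Morphisms -/

variable {N' T' : Type}

theorem Yld.map {P' : Set (N' × List (N' ⊕ T'))} {f : N' → N} {g : T' → T}
    (h : ∀ r ∈ P', (f r.1, r.2.map (Sum.map f g)) ∈ P) {β : List (N' ⊕ T')} {w : List T'}
    (hw : Yld P' β w) : Yld P (β.map (Sum.map f g)) (w.map g) := by
  induction hw with
  | nil => exact .nil
  | ter x _ ih => exact .ter (g x) ih
  | nt hr _ _ ih1 ih2 =>
    rw [List.map_append]
    exact .nt (h _ hr) ih1 ih2

/-- renaming nonterminals injectively does not change the language -/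
theorem Lg_image {f : N' → N} (hf : Function.Injective f) (P' : Set (N' × List (N' ⊕ T)))
    (S' : N') :
    Lg ((fun r : N' × List (N' ⊕ T) => (f r.1, r.2.map (Sum.map f id))) '' P') (f S') =
      Lg P' S' := by
  have hinj : Function.Injective (Sum.map f id : N' ⊕ T → N ⊕ T) :=
    Sum.map_injective.2 ⟨hf, Function.injective_id⟩
  ext w
  rw [mem_Lg, mem_Lg]
  constructor
  · intro h
    have key : ∀ {β : List (N ⊕ T)} {w : List T},
        Yld ((fun r : N' × List (N' ⊕ T) => (f r.1, r.2.map (Sum.map f id))) '' P') β w →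
        ∀ β', β = β'.map (Sum.map f id) → Yld P' β' w := by
      intro β w h
      induction h with
      | nil =>
        intro β' hβ
        have : β' = [] := by simpa using hβ.symm
        subst this
        exact .nil
      | ter x _ ih =>
        intro β' hβ
        cases β' with
        | nil => simp at hβ
        | cons b β' =>
          cases b with
          | inl B => simp at hβ
          | inr y =>
            simp only [List.map_cons, Sum.map_inr, id_eq, List.cons.injEq, Sum.inr.injEq] at hβ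
            obtain ⟨rfl, hβ⟩ := hβ
            exact .ter _ (ih _ hβ)
      | nt hr _ _ ih1 ih2 =>
        intro β' hβ
        cases β' with
        | nil => simp at hβ
        | cons b β' =>
          cases b with
          | inr y => simp at hβ
          | inl B =>
            simp only [List.map_cons, Sum.map_inl, List.cons.injEq, Sum.inl.injEq] at hβ
            obtain ⟨rfl, hβ⟩ := hβ
            obtain ⟨⟨B', γ'⟩, hr', he⟩ := hr
            obtain ⟨e1, e2⟩ := Prod.mk.inj he
            have e3 := hf e1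
            subst e3
            exact .nt hr' (ih1 _ e2.symm) (ih2 _ hβ)
    exact key h [Sum.inl S'] (by simp)
  · intro h
    have := Yld.map (P := (fun r : N' × List (N' ⊕ T) => (f r.1, r.2.map (Sum.map f id))) '' P')
      (f := f) (g := id) (fun r hr => ⟨r, hr, rfl⟩) h
    rw [List.map_id] at this
    simpa using this

/-! ### Families -/

/-- `L` is generated by an interpretation of the grammar `(P, S)` in which the terminal letter `x`
is a copy of `g x`. -/
def Fg (P : Set (N × List (N ⊕ T))) (S : N) (g : ℕ → T) (L : Set (List ℕ)) : Prop :=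
  ∃ (N' : Type) (_ : Countable N') (P' : Set (N' × List (N' ⊕ ℕ))) (S' : N') (f : N' → N),
    P'.Finite ∧ f S' = S ∧ (∀ r ∈ P', (f r.1, r.2.map (Sum.map f g)) ∈ P) ∧ Lg P' S' = L

theorem Fg.mono (hPQ : P ⊆ Q) {S : N} {g : ℕ → T} {L : Set (List ℕ)} (h : Fg P S g L) :
    Fg Q S g L := by
  obtain ⟨N', cN, P', S', f, h1, h2, h3, h4⟩ := h
  exact ⟨N', cN, P', S', f, h1, h2, fun r hr => hPQ (h3 r hr), h4⟩

/-- composition -/
theorem Fg.comp {P' : Set (N' × List (N' ⊕ ℕ))} {S' : N'} {f : N' → N} {g : ℕ → T} {S : N}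
    (h2 : f S' = S) (h3 : ∀ r ∈ P', (f r.1, r.2.map (Sum.map f g)) ∈ P) {φ : ℕ → ℕ}
    {L : Set (List ℕ)} (h : Fg P' S' φ L) : Fg P S (g ∘ φ) L := by
  obtain ⟨N'', cN, P'', S'', f', h1', h2', h3', h4'⟩ := h
  refine ⟨N'', cN, P'', S'', f ∘ f', h1', by simp [h2', h2], ?_, h4'⟩
  intro r hr
  have := h3 _ (h3' r hr)
  simpa [List.map_map, Function.comp_def, Sum.map_map] using this

/-- the set of lists with image `l` and with letters from a finite set is finite -/
theorem finite_lists {A B : Type} (h : A → B) (s : Set A) (hs : s.Finite) (l : List B) :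
    {l' : List A | l'.map h = l ∧ ∀ a ∈ l', a ∈ s}.Finite := by
  induction l with
  | nil =>
    refine (Set.finite_singleton ([] : List A)).subset ?_
    rintro l' ⟨h1, _⟩
    simpa using h1
  | cons b l ih =>
    refine ((hs.prod ih).image fun p : A × List A => p.1 :: p.2).subset ?_
    rintro l' ⟨h1, h2⟩
    cases l' with
    | nil => simp at h1
    | cons a l' =>
      simp only [List.map_cons, List.cons.injEq] at h1
      refine ⟨(a, l'), ⟨h2 a (by simp), h1.2, fun x hx => h2 x (by simp [hx])⟩, rfl⟩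

/-- lifting: the full inverse image -/
theorem Fg.lift [cN : Countable N] (hP : P.Finite) (S : N) (g : ℕ → T) (Δ : Set ℕ)
    (hΔ : Δ.Finite) :
    Fg P S g {w | w.map g ∈ Lg P S ∧ ∀ x ∈ w, x ∈ Δ} := by
  let P' : Set (N × List (N ⊕ ℕ)) :=
    {r | (r.1, r.2.map (Sum.map id g)) ∈ P ∧ ∀ x, Sum.inr x ∈ r.2 → x ∈ Δ}
  refine ⟨N, cN, P', S, id, ?_, rfl, fun r hr => hr.1, ?_⟩
  · have hfin : (⋃ r ∈ P, (fun l : List (N ⊕ ℕ) => (r.1, l)) ''
        {l' : List (N ⊕ ℕ) | l'.map (Sum.map id g) = r.2 ∧
          ∀ a ∈ l', a ∈ (Sum.inl '' {B | Sum.inl B ∈ r.2} ∪ Sum.inr '' Δ : Set (N ⊕ ℕ))}).Finite := by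
      refine hP.biUnion fun r _ => (finite_lists _ _ ?_ _).image _
      refine Set.Finite.union (Set.Finite.image _ ?_) (hΔ.image _)
      refine Set.Finite.subset ((r.2.finite_toSet.image fun x => (Sum.getLeft? x))
        |>.preimage (f := some) (Option.some_injective _).injOn) ?_
      intro B hB
      exact ⟨Sum.inl B, hB, rfl⟩
    refine hfin.subset ?_
    rintro ⟨B, β⟩ ⟨h1, h2⟩
    rw [Set.mem_iUnion₂]
    refine ⟨_, h1, β, ⟨rfl, ?_⟩, rfl⟩
    intro a ha
    cases a with
    | inl C =>
      left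
      refine ⟨C, ?_, rfl⟩
      exact List.mem_map.2 ⟨_, ha, rfl⟩
    | inr x => right; exact ⟨x, h2 x ha, rfl⟩
  · ext w
    rw [mem_Lg]
    constructor
    · intro h
      refine ⟨mem_Lg.2 ?_, ?_⟩
      · have := Yld.map (P := P) (f := id) (g := g) (fun r (hr : r ∈ P') => hr.1) h
        simpa using this
      · have key : ∀ {β : List (N ⊕ ℕ)} {w : List ℕ}, Yld P' β w →
            (∀ x, Sum.inr x ∈ β → x ∈ Δ) → ∀ x ∈ w, x ∈ Δ := by
          intro β w h
          induction h with
          | nil => intro _ x hx; simp at hx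
          | ter y _ ih =>
            intro hβ x hx
            rcases List.mem_cons.1 hx with rfl | hx
            · exact hβ _ (by simp)
            · exact ih (fun z hz => hβ z (by simp [hz])) x hx
          | nt hr _ _ ih1 ih2 =>
            intro hβ x hx
            rcases List.mem_append.1 hx with hx | hx
            · exact ih1 hr.2 x hx
            · exact ih2 (fun z hz => hβ z (by simp [hz])) x hx
        exact key h (by simp)
    · rintro ⟨h1, h2⟩
      have key : ∀ {β : List (N ⊕ T)} {v : List T}, Yld P β v → ∀ w : List ℕ, w.map g = v →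
          (∀ x ∈ w, x ∈ Δ) → ∃ β' : List (N ⊕ ℕ), β'.map (Sum.map id g) = β ∧
            (∀ x, Sum.inr x ∈ β' → x ∈ Δ) ∧ Yld P' β' w := by
        intro β v h
        induction h with
        | nil =>
          intro w hw _
          have : w = [] := by simpa using hw
          subst this
          exact ⟨[], rfl, by simp, .nil⟩
        | ter x _ ih =>
          intro w hw hΔw
          cases w with
          | nil => simp at hw
          | cons y w =>
            simp only [List.map_cons, List.cons.injEq] at hw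
            obtain ⟨rfl, hw⟩ := hw
            obtain ⟨β', rfl, h4, h5⟩ := ih w hw (fun z hz => hΔw z (by simp [hz]))
            refine ⟨Sum.inr y :: β', rfl, ?_, .ter y h5⟩
            intro z hz
            rcases List.mem_cons.1 hz with hz | hz
            · rw [Sum.inr.inj hz]; exact hΔw y (by simp)
            · exact h4 z hz
        | @nt B γ β v1 v2 hr _ _ ih1 ih2 =>
          intro w hw hΔw
          obtain ⟨w1, w2, rfl, e1, e2⟩ := List.map_eq_append_iff.1 hw
          obtain ⟨γ', h3, h4, h5⟩ := ih1 w1 e1 (fun z hz => hΔw z (by simp [hz]))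
          obtain ⟨β', h6, h7, h8⟩ := ih2 w2 e2 (fun z hz => hΔw z (by simp [hz]))
          refine ⟨Sum.inl B :: β', by simp [h6], ?_, .nt (γ := γ') ⟨by rw [h3]; exact hr, h4⟩ h5 h8⟩
          intro z hz
          rcases List.mem_cons.1 hz with hz | hz
          · simp at hz
          · exact h7 z hz
      obtain ⟨β', h3, _, h5⟩ := key (mem_Lg.1 h1) w rfl h2
      cases β' with
      | nil => simp at h3
      | cons b β' =>
        simp only [List.map_cons, List.cons.injEq, List.map_eq_nil_iff] at h3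
        obtain ⟨h3, rfl⟩ := h3
        cases b with
        | inr y => simp at h3
        | inl B =>
          simp only [Sum.map_inl, id_eq, Sum.inl.injEq] at h3
          rw [← h3]
          exact h5

/-- union -/
theorem Fg.union {S : N} {g : ℕ → T} {L1 L2 : Set (List ℕ)} (h1 : Fg P S g L1)
    (h2 : Fg P S g L2) : Fg P S g (L1 ∪ L2) := by
  obtain ⟨N1, cN1, P1, S1, f1, a1, a2, a3, rfl⟩ := h1
  obtain ⟨N2, cN2, P2, S2, f2, b1, b2, b3, rfl⟩ := h2
  let i1 : N1 → Option (N1 ⊕ N2) := fun A => some (Sum.inl A)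
  let i2 : N2 → Option (N1 ⊕ N2) := fun A => some (Sum.inr A)
  let R : Set (Option (N1 ⊕ N2) × List (Option (N1 ⊕ N2) ⊕ ℕ)) :=
    ((fun r : N1 × List (N1 ⊕ ℕ) => (i1 r.1, r.2.map (Sum.map i1 id))) '' P1) ∪
    ((fun r : N2 × List (N2 ⊕ ℕ) => (i2 r.1, r.2.map (Sum.map i2 id))) '' P2) ∪
    ((fun r : N1 × List (N1 ⊕ ℕ) => (none, r.2.map (Sum.map i1 id))) '' {r | r ∈ P1 ∧ r.1 = S1}) ∪
    ((fun r : N2 × List (N2 ⊕ ℕ) => (none, r.2.map (Sum.map i2 id))) '' {r | r ∈ P2 ∧ r.1 = S2})
  let f : Option (N1 ⊕ N2) → N := fun x => x.elim S (Sum.elim f1 f2)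
  have k1 : ∀ {β : List (N1 ⊕ ℕ)} {w : List ℕ}, Yld P1 β w → Yld R (β.map (Sum.map i1 id)) w := by
    intro β w h
    have := Yld.map (P := R) (f := i1) (g := id)
      (fun r (hr : r ∈ P1) => Or.inl (Or.inl (Or.inl ⟨r, hr, rfl⟩))) h
    rwa [List.map_id] at this
  have k2 : ∀ {β : List (N2 ⊕ ℕ)} {w : List ℕ}, Yld P2 β w → Yld R (β.map (Sum.map i2 id)) w := by
    intro β w h
    have := Yld.map (P := R) (f := i2) (g := id)
      (fun r (hr : r ∈ P2) => Or.inl (Or.inl (Or.inr ⟨r, hr, rfl⟩))) h
    rwa [List.map_id] at this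
  let s : Option (N1 ⊕ N2) → Set (List ℕ) := fun x =>
    x.elim (Lg P1 S1 ∪ Lg P2 S2) (Sum.elim (fun A => Lg P1 A) (fun A => Lg P2 A))
  have c1 : ∀ (γ : List (N1 ⊕ ℕ)) (w : List ℕ), w ∈ Cat s (γ.map (Sum.map i1 id)) → Yld P1 γ w := by
    intro γ
    induction γ with
    | nil =>
      intro w hw
      have : w = [] := hw
      subst this
      exact .nil
    | cons a γ ih =>
      intro w hw
      cases a with
      | inr x =>
        obtain ⟨v, hv, rfl⟩ := hw
        exact .ter x (ih _ hv)
      | inl B =>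
        obtain ⟨u, hu, v, hv, rfl⟩ := hw
        exact (mem_Lg.1 hu).append (ih _ hv)
  have c2 : ∀ (γ : List (N2 ⊕ ℕ)) (w : List ℕ), w ∈ Cat s (γ.map (Sum.map i2 id)) → Yld P2 γ w := by
    intro γ
    induction γ with
    | nil =>
      intro w hw
      have : w = [] := hw
      subst this
      exact .nil
    | cons a γ ih =>
      intro w hw
      cases a with
      | inr x =>
        obtain ⟨v, hv, rfl⟩ := hw
        exact .ter x (ih _ hv)
      | inl B =>
        obtain ⟨u, hu, v, hv, rfl⟩ := hw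
        exact (mem_Lg.1 hu).append (ih _ hv)
  refine ⟨Option (N1 ⊕ N2), inferInstance, R, none, f, ?_, rfl, ?_, ?_⟩
  · exact (((a1.image _).union (b1.image _)).union ((a1.subset fun r hr => hr.1).image _)).union
      ((b1.subset fun r hr => hr.1).image _)
  · rintro r (((⟨r, hr, rfl⟩ | ⟨r, hr, rfl⟩) | ⟨r, ⟨hr, hr'⟩, rfl⟩) | ⟨r, ⟨hr, hr'⟩, rfl⟩)
    · have := a3 r hr
      simpa [f, i1, List.map_map, Function.comp_def, Sum.map_map] using this
    · have := b3 r hr
      simpa [f, i2, List.map_map, Function.comp_def, Sum.map_map] using this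
    · have := a3 r hr
      rw [hr', a2] at this
      simpa [f, i1, List.map_map, Function.comp_def, Sum.map_map] using this
    · have := b3 r hr
      rw [hr', b2] at this
      simpa [f, i2, List.map_map, Function.comp_def, Sum.map_map] using this
  · ext w
    rw [mem_Lg]
    constructor
    · intro h
      have h' := Yld.cat (s := s) ?_ h
      · obtain ⟨u, hu, v, hv, rfl⟩ := h'
        have hv' : v = [] := hv
        subst hv'
        rw [List.append_nil]
        exact hu
      · rintro B γ (((⟨r, hr, he⟩ | ⟨r, hr, he⟩) | ⟨r, ⟨hr, hr'⟩, he⟩) | ⟨r, ⟨hr, hr'⟩, he⟩) w hw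
        · obtain ⟨rfl, rfl⟩ := Prod.mk.inj he
          exact mem_Lg.2 (yld_single.2 ⟨r.2, hr, c1 _ _ hw⟩)
        · obtain ⟨rfl, rfl⟩ := Prod.mk.inj he
          exact mem_Lg.2 (yld_single.2 ⟨r.2, hr, c2 _ _ hw⟩)
        · obtain ⟨rfl, rfl⟩ := Prod.mk.inj he
          left
          exact mem_Lg.2 (yld_single.2 ⟨r.2, hr' ▸ hr, c1 _ _ hw⟩)
        · obtain ⟨rfl, rfl⟩ := Prod.mk.inj he
          right
          exact mem_Lg.2 (yld_single.2 ⟨r.2, hr' ▸ hr, c2 _ _ hw⟩)
    · rintro (h | h)
      · obtain ⟨γ, hγ, h⟩ := yld_single.1 (mem_Lg.1 h)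
        exact yld_single.2 ⟨_, Or.inl (Or.inr ⟨(S1, γ), ⟨hγ, rfl⟩, rfl⟩), k1 h⟩
      · obtain ⟨γ, hγ, h⟩ := yld_single.1 (mem_Lg.1 h)
        exact yld_single.2 ⟨_, Or.inr ⟨(S2, γ), ⟨hγ, rfl⟩, rfl⟩, k2 h⟩

theorem Fg.empty (P : Set (N × List (N ⊕ T))) (S : N) (g : ℕ → T) : Fg P S g ∅ := by
  refine ⟨Unit, inferInstance, ∅, (), fun _ => S, Set.finite_empty, rfl, by simp, ?_⟩
  ext w
  rw [mem_Lg, yld_single]
  simp

theorem Fg.biUnion {S : N} {g : ℕ → T} {ι : Type} {s : Set ι} (hs : s.Finite)
    {L : ι → Set (List ℕ)} (h : ∀ i ∈ s, Fg P S g (L i)) : Fg P S g (⋃ i ∈ s, L i) := by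
  induction s, hs using Set.Finite.induction_on with
  | empty => simpa using Fg.empty P S g
  | @insert a s _ _ ih =>
    rw [Set.biUnion_insert]
    exact (h a (by simp)).union (ih fun i hi => h i (by simp [hi]))

end Pool.Agent.Q314.GF
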