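import Pool.Agent.Q314.GF.RL

/-!
# Coded grammars, interpretations and grammatical families
-/

set_option autoImplicit false

namespace Pool.Agent.Q314.GF

/-- A context-free grammar as a finite object: the start symbol and the list of productions
`(A, β)`. The nonterminals and the terminals are natural numbers; in `β` the entry `Sum.inl B` is
the nonterminal `B` and `Sum.inr b` is the terminal `b`. -/
abbrev Gram : Type := ℕ × List (ℕ × List (ℕ ⊕ ℕ))

/-- There are no productions `A → λ`. -/
def Gram.LambdaFree (G : Gram) : Prop := ∀ r ∈ G.2, r.2 ≠ []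

/-- The set of productions. -/
def Gram.prods (G : Gram) : Set (ℕ × List (ℕ ⊕ ℕ)) := {r | r ∈ G.2}

/-- The language generated by a coded grammar. -/
def Gram.language (G : Gram) : Set (List ℕ) := Lg G.prods G.1

/-- `x'` is one of the copies of the letter `x` under the substitution `σN` on nonterminals and
`σT` on terminals. -/
def Copy (σN σT : ℕ → Finset ℕ) : ℕ ⊕ ℕ → ℕ ⊕ ℕ → Prop
  | .inl A', .inl A => A' ∈ σN A
  | .inr a', .inr a => a' ∈ σT a
  | _, _ => False

/-- `G'` is an interpretation of `G`: there are finite sets `σN A` of nonterminals, pairwise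
disjoint, and finite sets `σT a` of terminals, pairwise disjoint, such that the start symbol of
`G'` is in `σN S` for the start symbol `S` of `G`, and every production of `G'` arises from a
production of `G` by replacing every letter occurrence by one of its copies. -/
def Interp (G' G : Gram) : Prop :=
  ∃ σN σT : ℕ → Finset ℕ, (∀ A B, A ≠ B → Disjoint (σN A) (σN B)) ∧
    (∀ a b, a ≠ b → Disjoint (σT a) (σT b)) ∧ G'.1 ∈ σN G.1 ∧
    ∀ r' ∈ G'.2, ∃ r ∈ G.2, r'.1 ∈ σN r.1 ∧ List.Forall₂ (Copy σN σT) r'.2 r.2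

/-- The grammatical family of `G`: the languages of its interpretations. -/
def Family (G : Gram) : Set (Set (List ℕ)) :=
  {L | ∃ G' : Gram, Interp G' G ∧ G'.language = L}

theorem exists_fun (σ : ℕ → Finset ℕ) (h : ∀ A B, A ≠ B → Disjoint (σ A) (σ B)) :
    ∃ f : ℕ → ℕ, ∀ A, ∀ A' ∈ σ A, f A' = A := by
  classical
  refine ⟨fun A' => if h : ∃ A, A' ∈ σ A then h.choose else 0, ?_⟩
  intro A A' hA
  have hex : ∃ A, A' ∈ σ A := ⟨A, hA⟩
  simp only [hex, dif_pos]
  by_contra hne
  exact Finset.disjoint_left.1 (h _ _ hne) hex.choose_spec hA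

/-- a finite grammar over countably many nonterminals can be coded -/
theorem exists_code {N' : Type} [Countable N'] {P' : Set (N' × List (N' ⊕ ℕ))} {S' : N'}
    (hfin : P'.Finite) (f : N' → ℕ) (g : ℕ → ℕ) {P : Set (ℕ × List (ℕ ⊕ ℕ))}
    (h : ∀ r ∈ P', (f r.1, r.2.map (Sum.map f g)) ∈ P) :
    ∃ (G' : Gram) (f' : ℕ → ℕ), f' G'.1 = f S' ∧
      (∀ r ∈ G'.2, (f' r.1, r.2.map (Sum.map f' g)) ∈ P) ∧ G'.language = Lg P' S' := by
  classical
  obtain ⟨e, he⟩ := exists_injective_nat N'
  have : Nonempty N' := ⟨S'⟩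
  have hinv : ∀ x, Function.invFun e (e x) = x := Function.leftInverse_invFun he
  refine ⟨(e S', (hfin.image (fun r : N' × List (N' ⊕ ℕ) =>
    (e r.1, r.2.map (Sum.map e id)))).toFinset.toList),
    fun n => f (Function.invFun e n), ?_, ?_, ?_⟩
  · simp [hinv]
  · intro r hr
    simp only [Finset.mem_toList, Set.Finite.mem_toFinset] at hr
    obtain ⟨r0, hr0, rfl⟩ := hr
    have := h r0 hr0
    simpa [List.map_map, Function.comp_def, Sum.map_map, hinv] using this
  · unfold Gram.language Gram.prods
    simp only [Finset.mem_toList, Set.Finite.mem_toFinset, Set.setOf_mem_eq]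
    exact Lg_image he P' S'

theorem mem_family_iff (G : Gram) (L : Set (List ℕ)) :
    L ∈ Family G ↔ ∃ g : ℕ → ℕ, Fg G.prods G.1 g L := by
  classical
  constructor
  · rintro ⟨G', ⟨σN, σT, h1, h2, h3, h4⟩, rfl⟩
    obtain ⟨f, hf⟩ := exists_fun σN h1
    obtain ⟨g, hg⟩ := exists_fun σT h2
    refine ⟨g, ℕ, inferInstance, G'.prods, G'.1, f, G'.2.finite_toSet, hf _ _ h3, ?_, rfl⟩
    intro r' hr'
    obtain ⟨r, hr, h5, h6⟩ := h4 r' hr'
    have h7 : r'.2.map (Sum.map f g) = r.2 := by
      have : ∀ {l' l : List (ℕ ⊕ ℕ)}, List.Forall₂ (Copy σN σT) l' l →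
          l'.map (Sum.map f g) = l := by
        intro l' l h
        induction h with
        | nil => rfl
        | @cons a b l1 l2 hab _ ih =>
          rw [List.map_cons, ih]
          cases a <;> cases b <;> simp only [Copy] at hab
          · rw [Sum.map_inl, hf _ _ hab]
          · rw [Sum.map_inr, hg _ _ hab]
      exact this h6
    rw [hf _ _ h5, h7]
    exact hr
  · rintro ⟨g, N', cN, P', S', f, h1, h2, h3, rfl⟩
    obtain ⟨G', f', e1, e2, e3⟩ := exists_code (S' := S') h1 f g h3
    refine ⟨G', ?_, e3⟩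
    have hN : ({n | n = G'.1 ∨ ∃ r ∈ G'.2, n = r.1 ∨ Sum.inl n ∈ r.2} : Set ℕ).Finite := by
      refine ((Set.finite_singleton G'.1).union (Set.Finite.biUnion (s := {r | r ∈ G'.2})
        (t := fun r => {r.1} ∪ {n | Sum.inl n ∈ r.2}) G'.2.finite_toSet ?_)).subset ?_
      · intro r _
        refine (Set.finite_singleton _).union ?_
        refine Set.Finite.subset ((r.2.finite_toSet.image fun x => (Sum.getLeft? x)).preimage
          (f := some) (Option.some_injective _).injOn) ?_
        intro x hx
        exact ⟨Sum.inl x, hx, rfl⟩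
      · rintro n (rfl | ⟨r, hr, h | h⟩)
        · left; rfl
        · right; exact Set.mem_iUnion₂.2 ⟨r, hr, Or.inl h⟩
        · right; exact Set.mem_iUnion₂.2 ⟨r, hr, Or.inr h⟩
    have hT : ({n | ∃ r ∈ G'.2, Sum.inr n ∈ r.2} : Set ℕ).Finite := by
      refine (Set.Finite.biUnion (s := {r | r ∈ G'.2})
        (t := fun r => {n | Sum.inr n ∈ r.2}) G'.2.finite_toSet ?_).subset ?_
      · intro r _
        refine Set.Finite.subset ((r.2.finite_toSet.image fun x => (Sum.getRight? x)).preimage
          (f := some) (Option.some_injective _).injOn) ?_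
        intro x hx
        exact ⟨Sum.inr x, hx, rfl⟩
      · rintro n ⟨r, hr, h⟩
        exact Set.mem_iUnion₂.2 ⟨r, hr, h⟩
    refine ⟨fun A => hN.toFinset.filter (fun n => f' n = A),
      fun a => hT.toFinset.filter (fun n => g n = a), ?_, ?_, ?_, ?_⟩
    · intro A B hAB
      rw [Finset.disjoint_left]
      intro n hn hn'
      rw [Finset.mem_filter] at hn hn'
      exact hAB (hn.2.symm.trans hn'.2)
    · intro A B hAB
      rw [Finset.disjoint_left]
      intro n hn hn'
      rw [Finset.mem_filter] at hn hn'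
      exact hAB (hn.2.symm.trans hn'.2)
    · rw [Finset.mem_filter, Set.Finite.mem_toFinset]
      exact ⟨Or.inl rfl, by rw [e1, h2]⟩
    · intro r hr
      refine ⟨_, e2 r hr, ?_, ?_⟩
      · rw [Finset.mem_filter, Set.Finite.mem_toFinset]
        exact ⟨Or.inr ⟨r, hr, Or.inl rfl⟩, rfl⟩
      · simp only
        rw [List.forall₂_map_right_iff]
        refine List.forall₂_same.2 ?_
        intro x hx
        cases x with
        | inl n =>
          simp only [Sum.map_inl, Copy, Finset.mem_filter, Set.Finite.mem_toFinset]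
          exact ⟨Or.inr ⟨r, hr, Or.inr hx⟩, trivial⟩
        | inr n =>
          simp only [Sum.map_inr, Copy, Finset.mem_filter, Set.Finite.mem_toFinset]
          exact ⟨⟨r, hr, hx⟩, trivial⟩

end Pool.Agent.Q314.GF
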