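import Pool.Agent.Q314.GF.Reg

/-!
# Right-linear grammars generate regular languages; absorption of a right-linear part
-/

set_option autoImplicit false

namespace Pool.Agent.Q314.GF

variable {N T : Type}

/-- meaning of the states of the automaton of a right-linear grammar -/
def Lan (P : Set (N × List (N ⊕ ℕ))) (q : Option N) : Set (List ℕ) :=
  q.elim {[]} (fun Z => Lg P Z)

/-- the steps of the automaton on sets of states -/
def StepS (P : Set (N × List (N ⊕ ℕ))) (A : Set (Option N)) (x : ℕ) : Set (Option N) :=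
  {q | ∃ Z, some Z ∈ A ∧ (((Z, [Sum.inr x]) ∈ P ∧ q = none) ∨
    ∃ Y, (Z, [Sum.inr x, Sum.inl Y]) ∈ P ∧ q = some Y)}

/-- the languages of right-linear grammars are regular -/
theorem rl_regular (P : Set (N × List (N ⊕ ℕ))) (hfin : P.Finite)
    (hP : ∀ r ∈ P, (∃ x, r.2 = [Sum.inr x]) ∨ ∃ x Y, r.2 = [Sum.inr x, Sum.inl Y]) (S : N) :
    ∃ R : Language ℕ, R.IsRegular ∧ ∀ w, w ∈ R ↔ w ∈ Lg P S := by
  classical
  let LS : Set (Option N) → Language ℕ := fun A => {w | ∃ q ∈ A, w ∈ Lan P q}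
  have h0 : ∀ w, w ∈ LS {some S} ↔ w ∈ Lg P S := by
    intro w
    constructor
    · rintro ⟨_, rfl, h⟩; exact h
    · intro h; exact ⟨_, rfl, h⟩
  refine ⟨LS {some S}, Language.IsRegular.of_finite_range_leftQuotient ?_, h0⟩
  have h1 : ∀ A x, (LS A).leftQuotient [x] = LS (StepS P A x) := by
    intro A x
    ext v
    rw [Language.mem_leftQuotient]
    constructor
    · rintro ⟨q, hq, hv⟩
      cases q with
      | none =>
        have : [x] ++ v = [] := hv
        simp at this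
      | some Z =>
        have hv' : [x] ++ v ∈ Lg P Z := hv
        rw [mem_Lg, yld_single] at hv'
        obtain ⟨γ, hγ, h⟩ := hv'
        rcases hP _ hγ with ⟨y, hy⟩ | ⟨y, Y, hy⟩
        · simp only at hy
          subst hy
          cases h with
          | ter _ h =>
            cases h
            exact ⟨none, ⟨Z, hq, Or.inl ⟨hγ, rfl⟩⟩, rfl⟩
        · simp only at hy
          subst hy
          cases h with
          | ter _ h =>
            exact ⟨some Y, ⟨Z, hq, Or.inr ⟨Y, hγ, rfl⟩⟩, mem_Lg.2 h⟩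
    · rintro ⟨q, ⟨Z, hZ, ⟨hr, rfl⟩ | ⟨Y, hr, rfl⟩⟩, hv⟩
      · have : v = [] := hv
        subst this
        exact ⟨some Z, hZ, mem_Lg.2 (yld_single.2 ⟨_, hr, .ter x .nil⟩)⟩
      · have hv' : v ∈ Lg P Y := hv
        exact ⟨some Z, hZ, mem_Lg.2 (yld_single.2 ⟨_, hr, .ter x (mem_Lg.1 hv')⟩)⟩
  let U : Set (Option N) := {some S} ∪ {none} ∪ ⋃ r ∈ P, {q | ∃ Y, Sum.inl Y ∈ r.2 ∧ q = some Y}
  have hU : U.Finite := by
    refine ((Set.finite_singleton _).union (Set.finite_singleton _)).union ?_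
    refine hfin.biUnion fun r _ => ?_
    refine (r.2.finite_toSet.image fun x => Sum.getLeft? x).subset ?_
    rintro q ⟨Y, hY, rfl⟩
    exact ⟨Sum.inl Y, hY, rfl⟩
  have h2 : ∀ A x, StepS P A x ⊆ U := by
    rintro A x q ⟨Z, _, ⟨_, rfl⟩ | ⟨Y, hr, rfl⟩⟩
    · left; right; rfl
    · right
      exact Set.mem_iUnion₂.2 ⟨_, hr, Y, by simp, rfl⟩
  have h3 : ∀ w : List ℕ, ∀ A ⊆ U, ∃ B ⊆ U, (LS A).leftQuotient w = LS B := by
    intro w
    induction w with
    | nil => intro A hA; exact ⟨A, hA, rfl⟩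
    | cons x w ih =>
      intro A hA
      obtain ⟨B, hB, he⟩ := ih (StepS P A x) (h2 A x)
      refine ⟨B, hB, ?_⟩
      rw [← List.singleton_append, Language.leftQuotient_append, h1, he]
  refine (hU.finite_subsets.image LS).subset ?_
  rintro _ ⟨w, rfl⟩
  obtain ⟨B, hB, he⟩ := h3 w {some S} (by rintro _ rfl; left; left; rfl)
  exact ⟨B, hB, he.symm⟩

/-- Absorption of a right-linear part `RL` whose language is contained in that of `R1`. -/
theorem absorb [Countable N] {R1 RL : Set (N × List (N ⊕ T))} {S : N} (hR1 : R1.Finite)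
    (hRL : ∀ r ∈ RL, (∃ x, r.2 = [Sum.inr x]) ∨ ∃ x Y, r.2 = [Sum.inr x, Sum.inl Y])
    (ha : ∀ r ∈ R1, ∀ B, Sum.inl B ∈ r.2 → ∀ r' ∈ RL, r'.1 ≠ B)
    (hb : ∀ r ∈ RL, ∀ B, Sum.inl B ∈ r.2 → ∀ r' ∈ R1, r'.1 ≠ B)
    (hL : Lg RL S ⊆ Lg R1 S) {g : ℕ → T} {L : Set (List ℕ)} (h : Fg (R1 ∪ RL) S g L) :
    Fg R1 S g L := by
  obtain ⟨N', cN, P', S', f, a1, a2, a3, rfl⟩ := h
  let P1 : Set (N' × List (N' ⊕ ℕ)) := {r | r ∈ P' ∧ (f r.1, r.2.map (Sum.map f g)) ∈ R1}
  let P2 : Set (N' × List (N' ⊕ ℕ)) := {r | r ∈ P' ∧ (f r.1, r.2.map (Sum.map f g)) ∈ RL}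
  have f1 : P1.Finite := a1.subset fun r hr => hr.1
  have f2 : P2.Finite := a1.subset fun r hr => hr.1
  have k1 : ∀ {β : List (N' ⊕ ℕ)} {w : List ℕ}, Yld P' β w →
      (∀ B, Sum.inl B ∈ β → ∀ r' ∈ RL, r'.1 ≠ f B) → Yld P1 β w := by
    intro β w h
    induction h with
    | nil => intro _; exact .nil
    | ter x _ ih => intro hβ; exact .ter x (ih fun B hB => hβ B (by simp [hB]))
    | @nt B γ β v w hr _ _ ih1 ih2 =>
      intro hβ
      have hB := hβ B (by simp)
      have hr1 : (f B, γ.map (Sum.map f g)) ∈ R1 := by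
        rcases a3 _ hr with h | h
        · exact h
        · exact absurd rfl (hB _ h)
      refine .nt ⟨hr, hr1⟩ (ih1 ?_) (ih2 fun C hC => hβ C (by simp [hC]))
      intro C hC
      exact ha _ hr1 (f C) (List.mem_map.2 ⟨_, hC, rfl⟩)
  have k2 : ∀ {β : List (N' ⊕ ℕ)} {w : List ℕ}, Yld P' β w →
      (∀ B, Sum.inl B ∈ β → ∀ r' ∈ R1, r'.1 ≠ f B) → Yld P2 β w := by
    intro β w h
    induction h with
    | nil => intro _; exact .nil
    | ter x _ ih => intro hβ; exact .ter x (ih fun B hB => hβ B (by simp [hB]))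
    | @nt B γ β v w hr _ _ ih1 ih2 =>
      intro hβ
      have hB := hβ B (by simp)
      have hr1 : (f B, γ.map (Sum.map f g)) ∈ RL := by
        rcases a3 _ hr with h | h
        · exact absurd rfl (hB _ h)
        · exact h
      refine .nt ⟨hr, hr1⟩ (ih1 ?_) (ih2 fun C hC => hβ C (by simp [hC]))
      intro C hC
      exact hb _ hr1 (f C) (List.mem_map.2 ⟨_, hC, rfl⟩)
  have he : Lg P' S' = Lg P1 S' ∪ Lg P2 S' := by
    ext w
    constructor
    · intro hw
      obtain ⟨γ, hγ, h⟩ := yld_single.1 (mem_Lg.1 hw)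
      rcases a3 _ hγ with h1 | h1
      · left
        refine mem_Lg.2 (yld_single.2 ⟨γ, ⟨hγ, h1⟩, k1 h ?_⟩)
        intro C hC
        exact ha _ h1 (f C) (List.mem_map.2 ⟨_, hC, rfl⟩)
      · right
        refine mem_Lg.2 (yld_single.2 ⟨γ, ⟨hγ, h1⟩, k2 h ?_⟩)
        intro C hC
        exact hb _ h1 (f C) (List.mem_map.2 ⟨_, hC, rfl⟩)
    · rintro (h | h)
      · exact Lg_mono (fun r hr => hr.1) _ h
      · exact Lg_mono (fun r hr => hr.1) _ h
  rw [he]
  refine Fg.union ⟨N', cN, P1, S', f, f1, a2, fun r hr => hr.2, rfl⟩ ?_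
  -- the right-linear part
  obtain ⟨R, hreg, hR⟩ : ∃ R : Language ℕ, R.IsRegular ∧ ∀ w, w ∈ R ↔ w ∈ Lg P2 S' := by
    refine rl_regular P2 f2 ?_ S'
    rintro ⟨B, γ⟩ ⟨_, hr⟩
    rcases hRL _ hr with ⟨x, hx⟩ | ⟨x, Y, hx⟩
    · left
      simp only at hx ⊢
      cases γ with
      | nil => simp at hx
      | cons a γ =>
        simp only [List.map_cons, List.cons.injEq, List.map_eq_nil_iff] at hx
        obtain ⟨h1, rfl⟩ := hx
        cases a with
        | inl C => simp at h1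
        | inr y => exact ⟨y, rfl⟩
    · right
      simp only at hx ⊢
      cases γ with
      | nil => simp at hx
      | cons a γ =>
        simp only [List.map_cons, List.cons.injEq] at hx
        obtain ⟨h1, hx⟩ := hx
        cases γ with
        | nil => simp at hx
        | cons b γ =>
          simp only [List.map_cons, List.cons.injEq, List.map_eq_nil_iff] at hx
          obtain ⟨h2, rfl⟩ := hx
          cases a with
          | inl C => simp at h1
          | inr y =>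
            cases b with
            | inr z => simp at h2
            | inl C => exact ⟨y, C, rfl⟩
  -- finitely many letters
  let Δ : Set ℕ := ⋃ r ∈ P2, {x | Sum.inr x ∈ r.2}
  have hΔ : Δ.Finite := by
    refine f2.biUnion fun r _ => ?_
    refine Set.Finite.subset ((r.2.finite_toSet.image fun x => (Sum.getRight? x)).preimage
      (f := some) (Option.some_injective _).injOn) ?_
    intro x hx
    exact ⟨Sum.inr x, hx, rfl⟩
  have hletters : ∀ {β : List (N' ⊕ ℕ)} {w : List ℕ}, Yld P2 β w →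
      (∀ x, Sum.inr x ∈ β → x ∈ Δ) → ∀ x ∈ w, x ∈ Δ := by
    intro β w h
    induction h with
    | nil => intro _ x hx; simp at hx
    | ter y _ ih =>
      intro hβ x hx
      rcases List.mem_cons.1 hx with rfl | hx
      · exact hβ _ (by simp)
      · exact ih (fun z hz => hβ z (by simp [hz])) x hx
    | nt hr _ _ ih1 ih2 =>
      intro hβ x hx
      rcases List.mem_append.1 hx with hx | hx
      · exact ih1 (fun z hz => Set.mem_iUnion₂.2 ⟨_, hr, hz⟩) x hx
      · exact ih2 (fun z hz => hβ z (by simp [hz])) x hx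
  have hlift := (Fg.lift hR1 S g Δ hΔ).reg hreg
  have he2 : {w | w ∈ {w : List ℕ | w.map g ∈ Lg R1 S ∧ ∀ x ∈ w, x ∈ Δ} ∧ w ∈ R} = Lg P2 S' := by
    ext w
    constructor
    · intro h; exact (hR w).1 h.2
    · intro h
      refine ⟨⟨hL ?_, hletters (mem_Lg.1 h) (by simp)⟩, (hR w).2 h⟩
      have := Yld.map (P := RL) (f := f) (g := g) (fun r hr => hr.2) (mem_Lg.1 h)
      rw [mem_Lg, ← a2]
      exact this
  exact he2 ▸ hlift

end Pool.Agent.Q314.GF
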