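import Pool.Agent.Q314.GF.Basic

/-!
# Grammatical families are closed under intersection with regular languages
-/

set_option autoImplicit false

namespace Pool.Agent.Q314.GF

variable {N T Q : Type}

/-- The ways to split a sentential form along paths from `p` to `q`. -/
def Exp (δ : Q → ℕ → Q) : Q → List (N ⊕ ℕ) → Q → Set (List (Option (N × Q × Q) ⊕ ℕ))
  | p, [], q => {l | l = [] ∧ p = q}
  | p, .inr x :: β, q => (fun l => Sum.inr x :: l) '' Exp δ (δ p x) β q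
  | p, .inl B :: β, q => ⋃ p1 : Q, (fun l => Sum.inl (some (B, p, p1)) :: l) '' Exp δ p1 β q

theorem exp_finite [Finite Q] (δ : Q → ℕ → Q) : ∀ (β : List (N ⊕ ℕ)) (p q : Q),
    (Exp δ p β q).Finite := by
  intro β
  induction β with
  | nil => intro p q; exact (Set.finite_singleton ([] : List _)).subset fun l hl => hl.1
  | cons a β ih =>
    intro p q
    cases a with
    | inr x => exact (ih _ _).image _
    | inl B => exact Set.finite_iUnion fun p1 => (ih _ _).image _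

theorem exp_map (δ : Q → ℕ → Q) (F : Option (N × Q × Q) → T) (f : N → T) {T' : Type} (g : ℕ → T')
    (hF : ∀ B p q, F (some (B, p, q)) = f B) : ∀ (β : List (N ⊕ ℕ)) (p q : Q),
    ∀ l ∈ Exp δ p β q, l.map (Sum.map F g) = β.map (Sum.map f g) := by
  intro β
  induction β with
  | nil =>
    intro p q l hl
    rw [hl.1]
    rfl
  | cons a β ih =>
    intro p q l hl
    cases a with
    | inr x =>
      obtain ⟨l', hl', rfl⟩ := hl
      simp [ih _ _ l' hl']
    | inl B =>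
      obtain ⟨p1, l', hl', rfl⟩ := Set.mem_iUnion.1 hl
      simp [ih _ _ l' hl', hF]

/-- intersection with regular languages -/
theorem Fg.reg {P : Set (N × List (N ⊕ T))} {S : N} {g : ℕ → T} {L : Set (List ℕ)}
    (h : Fg P S g L) {R : Language ℕ} (hR : R.IsRegular) : Fg P S g {w | w ∈ L ∧ w ∈ R} := by
  obtain ⟨N', cN, P', S', f, a1, a2, a3, rfl⟩ := h
  obtain ⟨Q, _, M, rfl⟩ := hR
  let R' : Set (Option (N' × Q × Q) × List (Option (N' × Q × Q) ⊕ ℕ)) :=
    (⋃ r ∈ P', ⋃ p : Q, ⋃ q : Q, (fun l => (some (r.1, p, q), l)) '' Exp M.step p r.2 q) ∪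
    (⋃ r ∈ {r | r ∈ P' ∧ r.1 = S'}, ⋃ q ∈ M.accept, (fun l => (none, l)) '' Exp M.step M.start r.2 q)
  let F : Option (N' × Q × Q) → N := fun x => x.elim S (fun y => f y.1)
  let s : Option (N' × Q × Q) → Set (List ℕ) := fun x =>
    x.elim {w | w ∈ Lg P' S' ∧ w ∈ M.accepts} (fun y => {w | w ∈ Lg P' y.1 ∧ M.evalFrom y.2.1 w = y.2.2})
  have c1 : ∀ (β : List (N' ⊕ ℕ)) (p q : Q), ∀ l ∈ Exp M.step p β q, ∀ w ∈ Cat s l,
      Yld P' β w ∧ M.evalFrom p w = q := by
    intro β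
    induction β with
    | nil =>
      intro p q l hl w hw
      obtain ⟨rfl, rfl⟩ := hl
      have : w = [] := hw
      subst this
      exact ⟨.nil, rfl⟩
    | cons a β ih =>
      intro p q l hl w hw
      cases a with
      | inr x =>
        obtain ⟨l', hl', rfl⟩ := hl
        obtain ⟨v, hv, rfl⟩ := hw
        obtain ⟨h1, h2⟩ := ih _ _ l' hl' v hv
        exact ⟨.ter x h1, h2⟩
      | inl B =>
        obtain ⟨p1, l', hl', rfl⟩ := Set.mem_iUnion.1 hl
        obtain ⟨u, hu, v, hv, rfl⟩ := hw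
        obtain ⟨hu1, hu2⟩ : u ∈ Lg P' B ∧ M.evalFrom p u = p1 := hu
        obtain ⟨h1, h2⟩ := ih _ _ l' hl' v hv
        refine ⟨(mem_Lg.1 hu1).append h1, ?_⟩
        rw [DFA.evalFrom_of_append, hu2, h2]
  have c2 : ∀ {β : List (N' ⊕ ℕ)} {w : List ℕ}, Yld P' β w → ∀ p : Q,
      ∃ l ∈ Exp M.step p β (M.evalFrom p w), Yld R' l w := by
    intro β w h
    induction h with
    | nil => intro p; exact ⟨[], ⟨rfl, rfl⟩, .nil⟩
    | ter x _ ih =>
      intro p
      obtain ⟨l, hl, hl'⟩ := ih (M.step p x)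
      exact ⟨_, ⟨l, hl, rfl⟩, .ter x hl'⟩
    | @nt B γ β v w hr _ _ ih1 ih2 =>
      intro p
      obtain ⟨l1, hl1, hl1'⟩ := ih1 p
      obtain ⟨l2, hl2, hl2'⟩ := ih2 (M.evalFrom p v)
      rw [← DFA.evalFrom_of_append] at hl2
      refine ⟨Sum.inl (some (B, p, M.evalFrom p v)) :: l2,
        Set.mem_iUnion.2 ⟨M.evalFrom p v, l2, hl2, rfl⟩, .nt (Or.inl ?_) hl1' hl2'⟩
      exact Set.mem_iUnion₂.2 ⟨(B, γ), hr, Set.mem_iUnion.2 ⟨p, Set.mem_iUnion.2
        ⟨_, l1, hl1, rfl⟩⟩⟩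
  have : Countable Q := Finite.to_countable
  refine ⟨Option (N' × Q × Q), inferInstance, R', none, F, ?_, rfl, ?_, ?_⟩
  · refine Set.Finite.union ?_ ?_
    · exact a1.biUnion fun r _ => Set.finite_iUnion fun p => Set.finite_iUnion fun q =>
        (exp_finite _ _ _ _).image _
    · exact (a1.subset fun r hr => hr.1).biUnion fun r _ => (Set.toFinite _).biUnion fun q _ =>
        (exp_finite _ _ _ _).image _
  · rintro r (hr | hr)
    · obtain ⟨r0, hr0, hr⟩ := Set.mem_iUnion₂.1 hr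
      obtain ⟨p, hr⟩ := Set.mem_iUnion.1 hr
      obtain ⟨q, l, hl, rfl⟩ := Set.mem_iUnion.1 hr
      have := exp_map M.step F f g (fun B p q => rfl) _ _ _ l hl
      simp only [this]
      exact a3 r0 hr0
    · obtain ⟨r0, ⟨hr0, hr1⟩, hr⟩ := Set.mem_iUnion₂.1 hr
      obtain ⟨q, _, l, hl, rfl⟩ := Set.mem_iUnion₂.1 hr
      have := exp_map M.step F f g (fun B p q => rfl) _ _ _ l hl
      simp only [this]
      have h3 := a3 r0 hr0
      rw [hr1, a2] at h3
      exact h3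
  · ext w
    rw [mem_Lg]
    constructor
    · intro h
      have h' := Yld.cat (s := s) ?_ h
      · obtain ⟨u, hu, v, hv, rfl⟩ := h'
        have hv' : v = [] := hv
        subst hv'
        rw [List.append_nil]
        exact hu
      · rintro B γ (hr | hr) w hw
        · obtain ⟨r0, hr0, hr⟩ := Set.mem_iUnion₂.1 hr
          obtain ⟨p, hr⟩ := Set.mem_iUnion.1 hr
          obtain ⟨q, l, hl, he⟩ := Set.mem_iUnion.1 hr
          obtain ⟨rfl, rfl⟩ := Prod.mk.inj he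
          obtain ⟨h1, h2⟩ := c1 _ _ _ l hl w hw
          exact ⟨mem_Lg.2 (yld_single.2 ⟨r0.2, hr0, h1⟩), h2⟩
        · obtain ⟨r0, ⟨hr0, hr1⟩, hr⟩ := Set.mem_iUnion₂.1 hr
          obtain ⟨q, hq, l, hl, he⟩ := Set.mem_iUnion₂.1 hr
          obtain ⟨rfl, rfl⟩ := Prod.mk.inj he
          obtain ⟨h1, h2⟩ := c1 _ _ _ l hl w hw
          refine ⟨mem_Lg.2 (yld_single.2 ⟨r0.2, hr1 ▸ hr0, h1⟩), ?_⟩
          rw [DFA.mem_accepts]
          have h3 : M.eval w = q := h2
          rw [h3]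
          exact hq
    · rintro ⟨h1, h2⟩
      obtain ⟨γ, hγ, h⟩ := yld_single.1 (mem_Lg.1 h1)
      obtain ⟨l, hl, hl'⟩ := c2 h M.start
      refine yld_single.2 ⟨l, Or.inr ?_, hl'⟩
      refine Set.mem_iUnion₂.2 ⟨(S', γ), ⟨hγ, rfl⟩, Set.mem_iUnion₂.2 ⟨_, ?_, l, hl, rfl⟩⟩
      exact (DFA.mem_accepts M).1 h2

end Pool.Agent.Q314.GF
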