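import Pool.Agent.Q314.GF.Code
import Pool.Agent.Helper557.Co.Decomp2

/-!
# Families of unary grammars
-/

set_option autoImplicit false

namespace Pool.Agent.Q314.GF

open Relation

variable {N T : Type}

/-! ### Regular languages -/

/-- languages given by an eventually periodic set of lengths are regular -/
theorem reg_len (A : Set ℕ) (M q : ℕ) (hq : 0 < q) (h : ∀ n ≥ M, n ∈ A ↔ n + q ∈ A) :
    Language.IsRegular ({w | w.length ∈ A} : Language ℕ) := by
  apply Language.IsRegular.of_finite_range_leftQuotient
  have h1 : ∀ m, ∃ m' < M + q, ∀ n, n + m ∈ A ↔ n + m' ∈ A := by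
    intro m
    induction m using Nat.strong_induction_on with
    | _ m ih =>
      by_cases hm : m < M + q
      · exact ⟨m, hm, fun n => Iff.rfl⟩
      · obtain ⟨m', hm', h2⟩ := ih (m - q) (by omega)
        refine ⟨m', hm', fun n => ?_⟩
        rw [← h2 n]
        have h3 := h (n + (m - q)) (by omega)
        have h4 : n + (m - q) + q = n + m := by omega
        rw [h4] at h3
        exact h3.symm
  refine ((Set.finite_Iio (M + q)).image fun m => ({w | w.length + m ∈ A} : Language ℕ)).subset ?_
  rintro _ ⟨u, rfl⟩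
  obtain ⟨m', hm', h2⟩ := h1 u.length
  refine ⟨m', hm', ?_⟩
  ext w
  change w.length + m' ∈ A ↔ (u ++ w).length ∈ A
  rw [← h2, List.length_append, Nat.add_comm]

theorem reg_single (e : ℕ) : Language.IsRegular ({w | ∀ x ∈ w, x = e} : Language ℕ) := by
  apply Language.IsRegular.of_finite_range_leftQuotient
  refine (Set.toFinite {({w | ∀ x ∈ w, x = e} : Language ℕ), (∅ : Set (List ℕ))}).subset ?_
  rintro _ ⟨u, rfl⟩
  by_cases hu : ∀ x ∈ u, x = e
  · left
    ext w
    change (∀ x ∈ u ++ w, x = e) ↔ (∀ x ∈ w, x = e)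
    constructor
    · intro h x hx; exact h x (List.mem_append_right _ hx)
    · intro h x hx
      rcases List.mem_append.1 hx with hx | hx
      · exact hu x hx
      · exact h x hx
  · right
    ext w
    change (∀ x ∈ u ++ w, x = e) ↔ False
    constructor
    · intro h
      exact hu fun x hx => h x (List.mem_append_left _ hx)
    · intro h; exact h.elim

theorem reg_const (Δ : Set ℕ) (hΔ : Δ.Finite) :
    Language.IsRegular ({w | ¬ ∃ e ∈ Δ, ∀ x ∈ w, x = e} : Language ℕ) := by
  have h1 : Language.IsRegular ({w | ∃ e ∈ Δ, ∀ x ∈ w, x = e} : Language ℕ) := by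
    induction Δ, hΔ using Set.Finite.induction_on with
    | empty =>
      apply Language.IsRegular.of_finite_range_leftQuotient
      refine (Set.finite_singleton (∅ : Set (List ℕ))).subset ?_
      rintro _ ⟨u, rfl⟩
      ext w
      change (∃ e ∈ (∅ : Set ℕ), ∀ x ∈ u ++ w, x = e) ↔ False
      simp
    | @insert a s _ _ ih =>
      have h2 := (reg_single a).add ih
      refine (congrArg Language.IsRegular ?_).mp h2
      ext w
      constructor
      · rintro (h | ⟨e, he, h⟩)
        · exact ⟨a, by simp, h⟩
        · exact ⟨e, by simp [he], h⟩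
      · rintro ⟨e, he, h⟩
        rcases he with rfl | he
        · left; exact h
        · right; exact ⟨e, he, h⟩
  exact h1.compl

/-! ### Unary pumping -/

/-- the embedding of the symbols -/
def eS : N ⊕ T → Symbol T N := Sum.elim Symbol.nonterminal Symbol.terminal

theorem eS_inj : Function.Injective (eS : N ⊕ T → Symbol T N) := by
  rintro (x | x) (y | y) h <;> simp [eS] at h <;> rw [h]

theorem eS_terminal (w : List T) : (w.map Sum.inr : List (N ⊕ T)).map eS =
    w.map Symbol.terminal := by
  rw [List.map_map]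
  rfl

/-- the grammar in the sense of Mathlib -/
noncomputable def toM (P : Set (N × List (N ⊕ T))) (hfin : P.Finite) (S : N) :
    ContextFreeGrammar T where
  NT := N
  initial := S
  rules := (hfin.image fun r => (⟨r.1, r.2.map eS⟩ : ContextFreeRule T N)).toFinset

/-- steps -/
def PM (P : Set (N × List (N ⊕ T))) (u v : List (Symbol T N)) : Prop :=
  ∃ (p q : List (Symbol T N)) (A : N) (γ : List (N ⊕ T)), (A, γ) ∈ P ∧
    u = p ++ [Symbol.nonterminal A] ++ q ∧ v = p ++ γ.map eS ++ q

theorem produces_iff (P : Set (N × List (N ⊕ T))) (hfin : P.Finite) (S : N)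
    (u v : List (Symbol T N)) : (toM P hfin S).Produces u v ↔ PM P u v := by
  constructor
  · rintro ⟨r, hr, h⟩
    have hr' := (Set.Finite.mem_toFinset (hfin.image fun r =>
      (⟨r.1, r.2.map eS⟩ : ContextFreeRule T N))).1 hr
    obtain ⟨⟨A, γ⟩, hA, rfl⟩ := hr'
    obtain ⟨p, q, h1, h2⟩ := ContextFreeRule.rewrites_iff.1 h
    exact ⟨p, q, A, γ, hA, h1, h2⟩
  · rintro ⟨p, q, A, γ, hA, h1, h2⟩
    have hr' : (⟨A, γ.map eS⟩ : ContextFreeRule T N) ∈
        (hfin.image fun r => (⟨r.1, r.2.map eS⟩ : ContextFreeRule T N)).toFinset := by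
      rw [Set.Finite.mem_toFinset]
      exact ⟨_, hA, rfl⟩
    exact ⟨_, hr', ContextFreeRule.rewrites_iff.2 ⟨p, q, h1, h2⟩⟩

theorem derives_iff (P : Set (N × List (N ⊕ T))) (hfin : P.Finite) (S : N)
    (u v : List (Symbol T N)) : (toM P hfin S).Derives u v ↔ ReflTransGen (PM P) u v := by
  constructor
  · intro h
    induction h with
    | refl => exact .refl
    | tail _ h ih => exact ih.tail ((produces_iff P hfin S _ _).1 h)
  · intro h
    induction h with
    | refl => exact ReflTransGen.refl
    | tail _ h ih => exact ReflTransGen.tail ih ((produces_iff P hfin S _ _).2 h)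

theorem mem_toM (P : Set (N × List (N ⊕ T))) (hfin : P.Finite) (S : N) (w : List T) :
    w ∈ (toM P hfin S).language ↔ w ∈ Lg P S := by
  have h0 : w ∈ (toM P hfin S).language ↔
      ReflTransGen (PM P) [Symbol.nonterminal S] (w.map Symbol.terminal) :=
    derives_iff P hfin S [Symbol.nonterminal S] (w.map Symbol.terminal)
  rw [h0]
  constructor
  · intro h
    have key : ∀ u : List (Symbol T N), ReflTransGen (PM P) u (w.map Symbol.terminal) →
        ∀ β : List (N ⊕ T), u = β.map eS → Yld P β w := by
      intro u hu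
      induction hu using ReflTransGen.head_induction_on with
      | refl =>
        intro β hβ
        have : β = w.map Sum.inr := by
          apply List.map_injective_iff.2 eS_inj
          rw [← hβ, eS_terminal]
        rw [this]
        exact yld_terminal w
      | head hs _ ih =>
        intro β hβ
        obtain ⟨p, q, A, γ, hA, rfl, rfl⟩ := hs
        obtain ⟨β12, β3, rfl, h12, h3⟩ := List.map_eq_append_iff.1 hβ.symm
        obtain ⟨β1, β2, rfl, h1, h2⟩ := List.map_eq_append_iff.1 h12
        have h4 : β2 = [Sum.inl A] := by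
          apply List.map_injective_iff.2 eS_inj
          rw [h2]
          rfl
        subst h4
        have h5 := ih (β1 ++ γ ++ β3) (by rw [List.map_append, List.map_append, h1, h3])
        obtain ⟨w1, w2, rfl, k1, k2⟩ := h5.append_inv
        obtain ⟨w3, w4, rfl, k3, k4⟩ := k1.append_inv
        exact (k3.append (yld_single.2 ⟨γ, hA, k4⟩)).append k2
    rw [mem_Lg]
    exact key _ h _ rfl
  · intro h
    have key : ∀ {u v : List (N ⊕ T)}, ReflTransGen (Step P) u v →
        ReflTransGen (PM P) (u.map eS) (v.map eS) := by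
      intro u v h
      induction h with
      | refl => exact .refl
      | tail _ hs ih =>
        obtain ⟨p, q, A, γ, hA, rfl, rfl⟩ := hs
        exact ih.tail ⟨p.map eS, q.map eS, A, γ, hA, by simp [eS], by simp⟩
    have h1 := key h
    rw [eS_terminal] at h1
    exact h1

/-- the inverse image of a grammar under a map of the terminals -/
theorem Lg_comap {T' : Type} (P : Set (N × List (N ⊕ T))) (S : N) (g : T' → T) (w : List T') :
    w ∈ Lg {r : N × List (N ⊕ T') | (r.1, r.2.map (Sum.map id g)) ∈ P} S ↔ w.map g ∈ Lg P S := by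
  rw [mem_Lg, mem_Lg]
  constructor
  · intro h
    have := Yld.map (P := P) (f := id) (g := g)
      (P' := {r : N × List (N ⊕ T') | (r.1, r.2.map (Sum.map id g)) ∈ P}) (fun r hr => hr) h
    simpa using this
  · intro h
    have key : ∀ {β : List (N ⊕ T)} {v : List T}, Yld P β v → ∀ w : List T', w.map g = v →
        ∃ β' : List (N ⊕ T'), β'.map (Sum.map id g) = β ∧
          Yld {r : N × List (N ⊕ T') | (r.1, r.2.map (Sum.map id g)) ∈ P} β' w := by
      intro β v h
      induction h with
      | nil =>
        intro w hw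
        have : w = [] := by simpa using hw
        subst this
        exact ⟨[], rfl, .nil⟩
      | ter x _ ih =>
        intro w hw
        cases w with
        | nil => simp at hw
        | cons y w =>
          simp only [List.map_cons, List.cons.injEq] at hw
          obtain ⟨rfl, hw⟩ := hw
          obtain ⟨β', rfl, h5⟩ := ih w hw
          exact ⟨Sum.inr y :: β', rfl, .ter y h5⟩
      | @nt B γ β v1 v2 hr _ _ ih1 ih2 =>
        intro w hw
        obtain ⟨w1, w2, rfl, e1, e2⟩ := List.map_eq_append_iff.1 hw
        obtain ⟨γ', h3, h5⟩ := ih1 w1 e1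
        obtain ⟨β', h6, h8⟩ := ih2 w2 e2
        refine ⟨Sum.inl B :: β', by simp [h6], .nt (γ := γ') ?_ h5 h8⟩
        change (B, γ'.map (Sum.map id g)) ∈ P
        rw [h3]
        exact hr
    obtain ⟨β', h3, h5⟩ := key h w rfl
    cases β' with
    | nil => simp at h3
    | cons b β' =>
      simp only [List.map_cons, List.cons.injEq, List.map_eq_nil_iff] at h3
      obtain ⟨h3, rfl⟩ := h3
      cases b with
      | inr y => simp at h3
      | inl B =>
        simp only [Sum.map_inl, id_eq, Sum.inl.injEq] at h3
        rw [← h3]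
        exact h5

/-- unary context-free languages: adding a fixed number to a large length is possible -/
theorem unary_pump (P : Set (N × List (N ⊕ T))) (hfin : P.Finite) (S : N) (e : T) :
    ∃ B : ℕ, ∀ n > B, List.replicate n e ∈ Lg P S → List.replicate (n + B.factorial) e ∈ Lg P S := by
  classical
  have hfin' : {r : N × List (N ⊕ Fin 1) | (r.1, r.2.map (Sum.map id (fun _ : Fin 1 => e))) ∈ P}.Finite := by
    refine hfin.preimage ?_
    rintro ⟨A, l⟩ _ ⟨A', l'⟩ _ h
    obtain ⟨rfl, h2⟩ := Prod.mk.inj h
    have hinj : Function.Injective (Sum.map id (fun _ : Fin 1 => e) : N ⊕ Fin 1 → N ⊕ T) :=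
      Sum.map_injective.2 ⟨Function.injective_id, fun x y _ => Subsingleton.elim x y⟩
    exact Prod.ext rfl (List.map_injective_iff.2 hinj h2)
  obtain ⟨ι, _, lo, hi, p, B, _, hp, hdec⟩ := Helper557.Co.decomposition (R := Fin 1) 0
    (fun r => Fin.zero_le r) (toM _ hfin' S).language ⟨_, rfl⟩
  have hsw : ∀ v : Fin 1 → ℕ, Helper557.Co.sw v ∈ (toM _ hfin' S).language ↔
      List.replicate (v 0) e ∈ Lg P S := by
    intro v
    rw [mem_toM, Lg_comap]
    have h1 : Helper557.Co.sw v = List.replicate (v 0) 0 := by
      unfold Helper557.Co.sw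
      simp
    rw [h1, List.map_replicate]
  refine ⟨B, fun n hn hL => ?_⟩
  obtain ⟨v0, m, hv0, hv, _, _, hm⟩ := hdec (fun _ => n) ((hsw _).2 hL)
  have hv0' : v0 0 ≤ B := by simpa using hv0
  have hn' : n = v0 0 + ∑ π, m π * p π 0 := by
    have := congrFun hv 0
    simpa [Finset.sum_apply] using this
  obtain ⟨π, hπ⟩ : ∃ π, m π * p π 0 ≠ 0 := by
    by_contra hcon
    push Not at hcon
    rw [Finset.sum_eq_zero fun π _ => hcon π] at hn'
    omega
  have hm0 : m π ≠ 0 := fun h => hπ (by rw [h, Nat.zero_mul])
  have hp0 : p π 0 ≠ 0 := fun h => hπ (by rw [h, Nat.mul_zero])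
  have hpB : p π 0 ≤ B := by simpa using hp π
  obtain ⟨c, hc⟩ : p π 0 ∣ B.factorial := Nat.dvd_factorial (Nat.pos_of_ne_zero hp0) hpB
  have h3 := hm (Function.update m π (m π + c)) (by
    intro π'
    by_cases h : π' = π
    · subst h
      rw [Function.update_self]
      omega
    · rw [Function.update_of_ne h])
  rw [hsw] at h3
  have h4 : (v0 + ∑ π', Function.update m π (m π + c) π' • p π') 0 = n + B.factorial := by
    simp only [Pi.add_apply, Finset.sum_apply, Pi.smul_apply, smul_eq_mul]
    rw [hn', ← Finset.add_sum_erase _ _ (Finset.mem_univ π),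
      ← Finset.add_sum_erase _ (fun π' => m π' * p π' 0) (Finset.mem_univ π), Function.update_self]
    have h5 : ∑ x ∈ Finset.univ.erase π, Function.update m π (m π + c) x * p x 0 =
        ∑ x ∈ Finset.univ.erase π, m x * p x 0 := by
      refine Finset.sum_congr rfl fun x hx => ?_
      rw [Function.update_of_ne (Finset.ne_of_mem_erase hx)]
    rw [h5, hc]
    ring
  rw [h4] at h3
  exact h3

/-- the lengths of the words `e^n` are eventually periodic -/
theorem unary_periodic (P : Set (N × List (N ⊕ T))) (hfin : P.Finite) (S : N) (e : T) :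
    ∃ M q : ℕ, 0 < q ∧ ∀ n ≥ M, n ∈ {n | List.replicate n e ∈ Lg P S} ↔
      n + q ∈ {n | List.replicate n e ∈ Lg P S} := by
  classical
  obtain ⟨B, hB⟩ := unary_pump P hfin S e
  have hq := B.factorial_pos
  have hup : ∀ n > B, List.replicate n e ∈ Lg P S → ∀ t : ℕ,
      List.replicate (n + t * B.factorial) e ∈ Lg P S := by
    intro n hn h t
    induction t with
    | zero => simpa using h
    | succ t ih =>
      have := hB (n + t * B.factorial) (by omega) ih
      rwa [Nat.add_assoc, ← Nat.succ_mul] at this
  have hex : ∀ r : ℕ, ∃ m, ∀ n > B, n % B.factorial = r → List.replicate n e ∈ Lg P S →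
      (m > B ∧ m % B.factorial = r ∧ List.replicate m e ∈ Lg P S) := by
    intro r
    by_cases h : ∃ n > B, n % B.factorial = r ∧ List.replicate n e ∈ Lg P S
    · obtain ⟨m, h1, h2, h3⟩ := h
      exact ⟨m, fun _ _ _ _ => ⟨h1, h2, h3⟩⟩
    · push Not at h
      exact ⟨0, fun n h1 h2 h3 => absurd h3 (h n h1 h2)⟩
  choose m hm using hex
  refine ⟨B + 1 + (Finset.range B.factorial).sup m, B.factorial, hq, ?_⟩
  intro n hn
  constructor
  · intro h
    exact hB n (by omega) h
  · intro h
    have h' : List.replicate (n + B.factorial) e ∈ Lg P S := h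
    obtain ⟨h1, h2, h3⟩ := hm (n % B.factorial) (n + B.factorial) (by omega)
      (by rw [Nat.add_mod_right]) h'
    have h4 : m (n % B.factorial) ≤ (Finset.range B.factorial).sup m :=
      Finset.le_sup (f := m) (Finset.mem_range.2 (Nat.mod_lt _ hq))
    have h5 : B.factorial ∣ n - m (n % B.factorial) :=
      (Nat.modEq_iff_dvd' (by omega)).1 h2
    obtain ⟨t, ht⟩ := h5
    have h6 := hup _ h1 h3 t
    have h7 : m (n % B.factorial) + t * B.factorial = n := by
      rw [Nat.mul_comm] at ht
      omega
    rw [h7] at h6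
    exact h6

end Pool.Agent.Q314.GF
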