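import Pool.Agent.Q314.GF.Unary

/-!
# Families of unary grammars: the main argument
-/

set_option autoImplicit false

namespace Pool.Agent.Q314.GF

variable {N T : Type} {P : Set (N × List (N ⊕ T))}

theorem Fg.congr {S : N} {g g' : ℕ → T} (h : ∀ x, (∃ r ∈ P, Sum.inr (g x) ∈ r.2) → g' x = g x)
    {L : Set (List ℕ)} (hL : Fg P S g L) : Fg P S g' L := by
  obtain ⟨N', cN, P', S', f, h1, h2, h3, h4⟩ := hL
  refine ⟨N', cN, P', S', f, h1, h2, fun r hr => ?_, h4⟩
  have h5 : r.2.map (Sum.map f g') = r.2.map (Sum.map f g) := by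
    apply List.map_congr_left
    intro x hx
    cases x with
    | inl B => rfl
    | inr y =>
      rw [Sum.map_inr, Sum.map_inr, h y ⟨_, h3 r hr, List.mem_map.2 ⟨_, hx, rfl⟩⟩]
  rw [h5]
  exact h3 r hr

theorem Fg.irr {S : N} {g : ℕ → T} {a : T} (ha : ∀ r ∈ P, ∀ t, Sum.inr t ∈ r.2 → t = a)
    {L : Set (List ℕ)} (hL : Fg P S g L) : Fg P S (fun _ => a) L :=
  hL.congr fun _ ⟨r, hr, h⟩ => (ha r hr _ h).symm

theorem Fg.image_mem {S : N} {g : ℕ → T} {L : Set (List ℕ)} (hL : Fg P S g L) {w : List ℕ}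
    (hw : w ∈ L) : w.map g ∈ Lg P S := by
  obtain ⟨N', cN, P', S', f, h1, rfl, h3, rfl⟩ := hL
  have := Yld.map (P := P) (f := f) (g := g) h3 (mem_Lg.1 hw)
  exact mem_Lg.2 (by simpa using this)

/-- inverse morphism -/
theorem Fg.inv {S : N} {a : T} {L : Set (List ℕ)} (hL : Fg P S (fun _ => a) L) (φ : ℕ → ℕ)
    (Δ : Set ℕ) (hΔ : Δ.Finite) :
    Fg P S (fun _ => a) {w | w.map φ ∈ L ∧ ∀ x ∈ w, x ∈ Δ} := by
  obtain ⟨N', cN, P', S', f, h1, h2, h3, rfl⟩ := hL
  exact Fg.comp (g := fun _ => a) (φ := φ) h2 h3 (Fg.lift h1 S' φ Δ hΔ)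

theorem Yld.mem_of_mem {β : List (N ⊕ T)} {w : List T} (h : Yld P β w) {x : T}
    (hx : Sum.inr x ∈ β) : x ∈ w := by
  induction h with
  | nil => simp at hx
  | ter y _ ih =>
    rcases List.mem_cons.1 hx with hx | hx
    · rw [Sum.inr.inj hx]; simp
    · exact List.mem_cons_of_mem _ (ih hx)
  | nt _ _ _ _ ih2 =>
    rcases List.mem_cons.1 hx with hx | hx
    · simp at hx
    · exact List.mem_append_right _ (ih2 hx)

theorem Yld.restrict (Δ : Set T) {β : List (N ⊕ T)} {w : List T} (h : Yld P β w)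
    (hw : ∀ x ∈ w, x ∈ Δ) : Yld {r | r ∈ P ∧ ∀ x, Sum.inr x ∈ r.2 → x ∈ Δ} β w := by
  induction h with
  | nil => exact .nil
  | ter y _ ih => exact .ter y (ih fun x hx => hw x (List.mem_cons_of_mem _ hx))
  | nt hr h1 _ ih1 ih2 =>
    exact .nt ⟨hr, fun x hx => hw x (List.mem_append_left _ (h1.mem_of_mem hx))⟩
      (ih1 fun x hx => hw x (List.mem_append_left _ hx))
      (ih2 fun x hx => hw x (List.mem_append_right _ hx))

theorem Yld.letters (Δ : Set T) (hP : ∀ r ∈ P, ∀ x, Sum.inr x ∈ r.2 → x ∈ Δ)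
    {β : List (N ⊕ T)} {w : List T} (h : Yld P β w) (hβ : ∀ x, Sum.inr x ∈ β → x ∈ Δ) :
    ∀ x ∈ w, x ∈ Δ := by
  induction h with
  | nil => intro x hx; simp at hx
  | ter y _ ih =>
    intro x hx
    rcases List.mem_cons.1 hx with rfl | hx
    · exact hβ _ (by simp)
    · exact ih (fun z hz => hβ z (List.mem_cons_of_mem _ hz)) x hx
  | nt hr _ _ ih1 ih2 =>
    intro x hx
    rcases List.mem_append.1 hx with hx | hx
    · exact ih1 (hP _ hr) x hx
    · exact ih2 (fun z hz => hβ z (List.mem_cons_of_mem _ hz)) x hx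

theorem Lg_restrict (S : N) (Δ : Set T) :
    Lg {r | r ∈ P ∧ ∀ x, Sum.inr x ∈ r.2 → x ∈ Δ} S = {w | w ∈ Lg P S ∧ ∀ x ∈ w, x ∈ Δ} := by
  ext w
  constructor
  · intro h
    exact ⟨Lg_mono (fun r hr => hr.1) S h,
      (mem_Lg.1 h).letters Δ (fun r hr => hr.2) (by simp)⟩
  · rintro ⟨h1, h2⟩
    exact mem_Lg.2 ((mem_Lg.1 h1).restrict Δ h2)

/-- restriction to the letters of one colour -/
theorem Fg.restrict {S : N} {g : ℕ → T} {b : T} {L : Set (List ℕ)} (h : Fg P S g L) (Δ : Set ℕ)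
    (hΔ : ∀ x ∈ Δ, g x = b) :
    Fg {r | r ∈ P ∧ ∀ t, Sum.inr t ∈ r.2 → t = b} S g {w | w ∈ L ∧ ∀ x ∈ w, x ∈ Δ} := by
  obtain ⟨N', cN, P', S', f, h1, h2, h3, rfl⟩ := h
  refine ⟨N', cN, {r | r ∈ P' ∧ ∀ x, Sum.inr x ∈ r.2 → x ∈ Δ}, S', f, h1.subset fun r hr => hr.1,
    h2, ?_, Lg_restrict S' Δ⟩
  rintro r ⟨hr, hr'⟩
  refine ⟨h3 r hr, ?_⟩
  intro t ht
  obtain ⟨x, hx, he⟩ := List.mem_map.1 ht
  cases x with
  | inl B => simp at he
  | inr y =>
    simp only [Sum.map_inr, Sum.inr.injEq] at he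
    rw [← he]
    exact hΔ y (hr' y hx)

theorem Fg.alphabet {S : N} {g : ℕ → T} {L : Set (List ℕ)} (h : Fg P S g L) :
    ∃ Δ : Set ℕ, Δ.Finite ∧ ∀ w ∈ L, ∀ x ∈ w, x ∈ Δ := by
  obtain ⟨N', cN, P', S', f, h1, h2, h3, rfl⟩ := h
  refine ⟨⋃ r ∈ P', {x | Sum.inr x ∈ r.2}, ?_, ?_⟩
  · refine h1.biUnion fun r _ => ?_
    refine Set.Finite.subset ((r.2.finite_toSet.image fun x => (Sum.getRight? x)).preimage
      (f := some) (Option.some_injective _).injOn) ?_
    intro x hx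
    exact ⟨Sum.inr x, hx, rfl⟩
  · intro w hw
    exact (mem_Lg.1 hw).letters _ (fun r hr x hx => Set.mem_iUnion₂.2 ⟨r, hr, hx⟩) (by simp)

/-- the nonconstant words -/
def NC : Set (List ℕ) := {w | ¬ ∃ e, ∀ x ∈ w, x = e}

theorem const_iff {Δ : Set ℕ} (h0 : 0 ∈ Δ) {w : List ℕ} (hw : ∀ x ∈ w, x ∈ Δ) :
    (∃ e, ∀ x ∈ w, x = e) ↔ ∃ e ∈ Δ, ∀ x ∈ w, x = e := by
  constructor
  · rintro ⟨e, he⟩
    cases w with
    | nil => exact ⟨0, h0, by simp⟩
    | cons y w => exact ⟨e, he y (by simp) ▸ hw y (by simp), he⟩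
  · rintro ⟨e, _, he⟩
    exact ⟨e, he⟩

theorem Fg.nc {S : N} {g : ℕ → T} {L : Set (List ℕ)} (h : Fg P S g L) :
    Fg P S g {w | w ∈ L ∧ w ∈ NC} := by
  obtain ⟨Δ, hΔ, hL⟩ := h.alphabet
  have h1 := h.reg (reg_const (insert 0 Δ) (hΔ.insert 0))
  refine (congrArg (Fg P S g) ?_).mp h1
  ext w
  refine and_congr_right fun hw => ?_
  exact (const_iff (Set.mem_insert _ _) fun x hx => Set.mem_insert_of_mem _ (hL w hw x hx)).not.symm

/-- all words over one letter with lengths in an eventually periodic set -/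
theorem Fg.lengths [Countable N] (hP : P.Finite) (S : N) (b : T) (e : ℕ) (A : Set ℕ) (M q : ℕ)
    (hq : 0 < q) (hA : ∀ n ≥ M, n ∈ A ↔ n + q ∈ A) :
    Fg P S (fun _ => b) {w | List.replicate w.length b ∈ Lg P S ∧ (∀ x ∈ w, x = e) ∧
      w.length ∈ A} := by
  have h1 := (Fg.lift hP S (fun _ => b) {e} (Set.finite_singleton e)).reg (reg_len A M q hq hA)
  refine (congrArg (Fg P S _) ?_).mp h1
  ext w
  change ((w.map (fun _ => b) ∈ Lg P S ∧ ∀ x ∈ w, x ∈ ({e} : Set ℕ)) ∧ w.length ∈ A) ↔ _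
  rw [List.map_const', and_assoc]
  rfl

/-- the constant words -/
theorem Fg.const_part {S : N} {a : T} {L : Set (List ℕ)} (hL : Fg P S (fun _ => a) L)
    {N₂ T₂ : Type} [Countable N₂] {P₂ : Set (N₂ × List (N₂ ⊕ T₂))} (hP₂ : P₂.Finite) (S₂ : N₂)
    (b : T₂) (hU : ∀ n, List.replicate n a ∈ Lg P S → List.replicate n b ∈ Lg P₂ S₂) :
    Fg P₂ S₂ (fun _ => b) {w | w ∈ L ∧ w ∉ NC} := by
  obtain ⟨Δ, hΔ, hLΔ⟩ := hL.alphabet
  have himg := fun w (hw : w ∈ L) => hL.image_mem hw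
  obtain ⟨N', cN, P', S', f, h1, h2, h3, rfl⟩ := hL
  have h4 := Fg.biUnion (P := P₂) (S := S₂) (g := fun _ => b) (hΔ.insert 0)
    (L := fun e => {w | List.replicate w.length b ∈ Lg P₂ S₂ ∧ (∀ x ∈ w, x = e) ∧
      w.length ∈ {n | List.replicate n e ∈ Lg P' S'}}) (by
    intro e _
    obtain ⟨M, q, hq, hA⟩ := unary_periodic P' h1 S' e
    exact Fg.lengths hP₂ S₂ b e _ M q hq hA)
  refine (congrArg (Fg P₂ S₂ _) ?_).mp h4
  ext w
  rw [Set.mem_iUnion₂]
  constructor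
  · rintro ⟨e, he, h5, h6, h7⟩
    have h8 : w = List.replicate w.length e := List.eq_replicate_iff.2 ⟨rfl, h6⟩
    have h9 : List.replicate w.length e ∈ Lg P' S' := h7
    rw [← h8] at h9
    exact ⟨h9, fun hn => hn ⟨e, h6⟩⟩
  · rintro ⟨hw, hn⟩
    have hn' : ∃ e, ∀ x ∈ w, x = e := not_not.1 hn
    obtain ⟨e, he, h6⟩ := (const_iff (Set.mem_insert 0 Δ)
      fun x hx => Set.mem_insert_of_mem _ (hLΔ w hw x hx)).1 hn'
    have h8 : w = List.replicate w.length e := List.eq_replicate_iff.2 ⟨rfl, h6⟩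
    refine ⟨e, he, hU _ ?_, h6, ?_⟩
    · have := himg w hw
      rwa [List.map_const'] at this
    · change List.replicate w.length e ∈ Lg P' S'
      rw [← h8]
      exact hw

/-- **Main theorem.** -/
theorem unary_main {N₂ : Type} [Countable N] [Countable N₂] {S : N} {a : T} (hP : P.Finite)
    (ha : ∀ r ∈ P, ∀ t, Sum.inr t ∈ r.2 → t = a)
    {P₂ : Set (N₂ × List (N₂ ⊕ ℕ))} (hP₂ : P₂.Finite) (S₂ : N₂) (TH : Finset ℕ)
    (hne : TH.Nonempty) (hTH : ∀ r ∈ P₂, ∀ t, Sum.inr t ∈ r.2 → t ∈ TH)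
    (heq : ∀ L, (∃ g, Fg P S g L) ↔ ∃ g, Fg P₂ S₂ g L) :
    ∃ b ∈ TH, ∀ L, (∃ g, Fg P S g L) →
      ∃ g, Fg {r | r ∈ P₂ ∧ ∀ t, Sum.inr t ∈ r.2 → t = b} S₂ g L := by
  classical
  by_contra hcon
  push Not at hcon
  let PR : ℕ → Set (N₂ × List (N₂ ⊕ ℕ)) := fun b => {r | r ∈ P₂ ∧ ∀ t, Sum.inr t ∈ r.2 → t = b}
  have hPR : ∀ b, (PR b).Finite := fun b => hP₂.subset fun r hr => hr.1
  -- the languages that are not in the family of the restriction
  have h1 : ∀ b : ℕ, ∃ L : Set (List ℕ), b ∈ TH → Fg P S (fun _ => a) L ∧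
      ¬ Fg (PR b) S₂ (fun _ => b) L := by
    intro b
    by_cases hb : b ∈ TH
    · obtain ⟨L, ⟨g, hL⟩, hL'⟩ := hcon b hb
      exact ⟨L, fun _ => ⟨hL.irr ha, hL' _⟩⟩
    · exact ⟨∅, fun h => absurd h hb⟩
  choose Lb hLb using h1
  let Good : ℕ → Prop := fun b => ∀ n, List.replicate n a ∈ Lg P S →
    List.replicate n b ∈ Lg (PR b) S₂
  have hbad : ∀ b, ∃ n, ¬ Good b → List.replicate n a ∈ Lg P S ∧
      List.replicate n b ∉ Lg (PR b) S₂ := by
    intro b
    by_cases hb : Good b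
    · exact ⟨0, fun h => absurd hb h⟩
    · have hb' := hb
      simp only [Good] at hb'
      push Not at hb'
      obtain ⟨n, h1, h2⟩ := hb'
      exact ⟨n, fun _ => ⟨h1, h2⟩⟩
  choose nb hnb using hbad
  have hgood : ∀ b ∈ TH, Good b → ¬ Fg (PR b) S₂ (fun _ => b) {w | w ∈ Lb b ∧ w ∈ NC} := by
    intro b hb hg h
    apply (hLb b hb).2
    have h2 := Fg.const_part (hLb b hb).1 (hPR b) S₂ b hg
    refine (congrArg (Fg (PR b) S₂ _) ?_).mp (h.union h2)
    ext w
    simp only [Set.mem_union, Set.mem_setOf_eq]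
    tauto
  have halph : ∀ b, ∃ Δ : Set ℕ, Δ.Finite ∧ (b ∈ TH → ∀ w ∈ Lb b, ∀ x ∈ w, x ∈ Δ) := by
    intro b
    by_cases hb : b ∈ TH
    · obtain ⟨Δ, h1, h2⟩ := (hLb b hb).1.alphabet
      exact ⟨Δ, h1, fun _ => h2⟩
    · exact ⟨∅, Set.finite_empty, fun h => absurd h hb⟩
  choose Δb hΔfin hΔ using halph
  -- the combined language
  let L : Set (List ℕ) := ⋃ b ∈ {b | b ∈ TH ∧ Good b},
    {w | w.map (fun x => x.unpair.2) ∈ {w | w ∈ Lb b ∧ w ∈ NC} ∧ ∀ x ∈ w, x ∈ Nat.pair b '' Δb b}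
  have hLfam : Fg P S (fun _ => a) L := by
    refine Fg.biUnion (TH.finite_toSet.subset fun b hb => hb.1) fun b hb => ?_
    exact (hLb b hb.1).1.nc.inv _ _ ((hΔfin b).image _)
  have hLNC : ∀ w ∈ L, w ∈ NC := by
    intro w hw
    obtain ⟨b, _, ⟨_, h2⟩, _⟩ := Set.mem_iUnion₂.1 hw
    rintro ⟨e, he⟩
    apply h2
    refine ⟨e.unpair.2, ?_⟩
    intro x hx
    obtain ⟨y, hy, rfl⟩ := List.mem_map.1 hx
    rw [he y hy]
  obtain ⟨Δ0, hΔ0, hLΔ0⟩ := hLfam.alphabet
  let Δ : Finset ℕ := insert 0 hΔ0.toFinset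
  have hLΔ : ∀ w ∈ L, ∀ x ∈ w, x ∈ Δ := by
    intro w hw x hx
    exact Finset.mem_insert_of_mem (hΔ0.mem_toFinset.2 (hLΔ0 w hw x hx))
  have h0Δ : 0 ∈ Δ := Finset.mem_insert_self _ _
  -- the cube
  obtain ⟨ι, _, hHJ⟩ := Combinatorics.Line.exists_mono_in_high_dimension {x // x ∈ Δ} {x // x ∈ TH}
  obtain ⟨enc, henc⟩ := exists_injective_nat (ι → {x // x ∈ Δ})
  have hneC : Nonempty (ι → {x // x ∈ Δ}) := ⟨fun _ => ⟨0, h0Δ⟩⟩
  let π : ι → ℕ → ℕ := fun i n => (Function.invFun enc n i : ℕ)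
  have hπ : ∀ i v, π i (enc v) = (v i : ℕ) := by
    intro i v
    change ((Function.invFun enc (enc v)) i : ℕ) = _
    rw [Function.leftInverse_invFun henc]
  have hrange : (Set.range enc).Finite := Set.finite_range enc
  let M : Set (List ℕ) := (⋃ i ∈ (Set.univ : Set ι), {w | w.map (π i) ∈ L ∧ ∀ x ∈ w, x ∈ Set.range enc}) ∪
    ⋃ e ∈ Set.range enc, ⋃ b ∈ {b | b ∈ TH ∧ ¬ Good b}, {List.replicate (nb b) e}
  have hMfam : Fg P S (fun _ => a) M := by
    refine Fg.union (Fg.biUnion Set.finite_univ fun i _ => hLfam.inv _ _ hrange) ?_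
    refine Fg.biUnion hrange fun e _ => ?_
    refine Fg.biUnion (TH.finite_toSet.subset fun b hb => hb.1) fun b hb => ?_
    have h2 := Fg.lengths hP S a e {nb b} (nb b + 1) 1 one_pos (by
      intro n hn
      simp only [Set.mem_singleton_iff]
      omega)
    refine (congrArg (Fg P S _) ?_).mp h2
    ext w
    constructor
    · rintro ⟨_, h3, h4⟩
      exact List.eq_replicate_iff.2 ⟨h4, h3⟩
    · intro hw
      have hw' : w = List.replicate (nb b) e := hw
      subst hw'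
      refine ⟨?_, fun x hx => List.eq_of_mem_replicate hx, by simp⟩
      rw [List.length_replicate]
      exact (hnb b hb.2).1
  obtain ⟨g, hg⟩ := (heq M).1 ⟨_, hMfam⟩
  obtain ⟨b0, hb0⟩ := hne
  -- the colouring
  let g' : ℕ → ℕ := fun x => if g x ∈ TH then g x else b0
  have hg'TH : ∀ x, g' x ∈ TH := by
    intro x
    change (if g x ∈ TH then g x else b0) ∈ TH
    split_ifs with h
    · exact h
    · exact hb0
  have hMg' : Fg P₂ S₂ g' M := by
    refine hg.congr ?_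
    rintro x ⟨r, hr, hx⟩
    exact if_pos (hTH r hr _ hx)
  obtain ⟨l, ⟨b, hbTH⟩, hl⟩ := hHJ fun v => ⟨g' (enc v), hg'TH _⟩
  have hl' : ∀ x, g' (enc (l x)) = b := fun x => congrArg Subtype.val (hl x)
  have hinv : ∀ x : {x // x ∈ Δ}, ∀ i, l.idxFun i = none → π i (enc (l x)) = x := by
    intro x i hi
    rw [hπ, l.apply_none x i hi]
  obtain ⟨i0, hi0⟩ := l.proper
  -- the restriction to the line
  have hM' := (hMg'.restrict (b := b) (Set.range fun x => enc (l x)) (by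
    rintro _ ⟨x, rfl⟩; exact hl' x))
  by_cases hbg : Good b
  · -- good colours
    apply hgood b hbTH hbg
    have hunary : ∀ r ∈ PR b, ∀ t, Sum.inr t ∈ r.2 → t = b := fun r hr => hr.2
    let toα : ℕ → {x // x ∈ Δ} := fun x => if h : x ∈ Δ then ⟨x, h⟩ else ⟨0, h0Δ⟩
    have htoα : ∀ x, (h : x ∈ Δ) → toα x = ⟨x, h⟩ := fun x h => dif_pos h
    let ψ : ℕ → ℕ := fun x => enc (l (toα x))
    have h3 := ((hM'.irr hunary).inv ψ Δ Δ.finite_toSet).nc
    have h4 : {w | w ∈ {w | w.map ψ ∈ {w | w ∈ M ∧ ∀ x ∈ w, x ∈ Set.range fun x => enc (l x)} ∧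
        ∀ x ∈ w, x ∈ (Δ : Set ℕ)} ∧ w ∈ NC} = L := by
      ext w
      constructor
      · rintro ⟨⟨⟨hw1, _⟩, hw2⟩, hw3⟩
        rcases hw1 with hw1 | hw1
        · obtain ⟨i, _, hw4, _⟩ := Set.mem_iUnion₂.1 hw1
          rw [List.map_map] at hw4
          cases hi : l.idxFun i with
          | none =>
            have h5 : w.map (π i ∘ ψ) = w := by
              conv_rhs => rw [← List.map_id w]
              apply List.map_congr_left
              intro x hx
              change π i (enc (l (toα x))) = x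
              rw [hinv _ i hi, htoα x (hw2 x hx)]
            rwa [h5] at hw4
          | some c =>
            exfalso
            apply hLNC _ hw4
            refine ⟨c, ?_⟩
            intro x hx
            obtain ⟨y, _, rfl⟩ := List.mem_map.1 hx
            change π i (enc (l (toα y))) = c
            rw [hπ, l.apply_some hi]
        · exfalso
          obtain ⟨e, _, hw4⟩ := Set.mem_iUnion₂.1 hw1
          obtain ⟨b', _, hw5⟩ := Set.mem_iUnion₂.1 hw4
          have hw6 : w.map ψ = List.replicate (nb b') e := hw5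
          apply hw3
          cases w with
          | nil => exact ⟨0, by simp⟩
          | cons y w =>
            refine ⟨y, ?_⟩
            have h7 : ∀ x ∈ y :: w, ψ x = e := by
              intro x hx
              have : ψ x ∈ (y :: w).map ψ := List.mem_map.2 ⟨x, hx, rfl⟩
              rw [hw6] at this
              exact List.eq_of_mem_replicate this
            intro x hx
            have h8 : ψ x = ψ y := (h7 x hx).trans (h7 y (by simp)).symm
            have h9 := congrArg (π i0) h8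
            change π i0 (enc (l (toα x))) = π i0 (enc (l (toα y))) at h9
            rw [hinv _ i0 hi0, hinv _ i0 hi0, htoα x (hw2 x hx), htoα y (hw2 y (by simp))] at h9
            exact h9
      · intro hw
        refine ⟨⟨⟨Or.inl (Set.mem_iUnion₂.2 ⟨i0, Set.mem_univ _, ?_, ?_⟩), ?_⟩, hLΔ w hw⟩,
          hLNC w hw⟩
        · rw [List.map_map]
          have h5 : w.map (π i0 ∘ ψ) = w := by
            conv_rhs => rw [← List.map_id w]
            apply List.map_congr_left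
            intro x hx
            change π i0 (enc (l (toα x))) = x
            rw [hinv _ i0 hi0, htoα x (hLΔ w hw x hx)]
          rw [h5]
          exact hw
        · intro x hx
          obtain ⟨y, _, rfl⟩ := List.mem_map.1 hx
          exact ⟨_, rfl⟩
        · intro x hx
          obtain ⟨y, _, rfl⟩ := List.mem_map.1 hx
          exact ⟨_, rfl⟩
    rw [h4] at h3
    have h5 := h3.inv (Nat.pair b) (Δb b) (hΔfin b)
    refine (congrArg (Fg (PR b) S₂ _) ?_).mp h5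
    ext w
    constructor
    · rintro ⟨hw1, hw2⟩
      obtain ⟨b', hb', hw3, hw4⟩ := Set.mem_iUnion₂.1 hw1
      have hwne : w ≠ [] := by
        rintro rfl
        exact hLNC _ hw1 ⟨0, by simp⟩
      have hbb : b' = b := by
        obtain ⟨y, w', rfl⟩ := List.exists_cons_of_ne_nil hwne
        obtain ⟨z, _, hz⟩ := hw4 (Nat.pair b y) (by simp)
        have := congrArg (fun n => n.unpair.1) hz
        simpa using this
      subst hbb
      have h6 : (w.map (Nat.pair b')).map (fun x => x.unpair.2) = w := by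
        rw [List.map_map]
        conv_rhs => rw [← List.map_id w]
        apply List.map_congr_left
        intro x _
        simp
      rwa [h6] at hw3
    · rintro hw
      refine ⟨Set.mem_iUnion₂.2 ⟨b, ⟨hbTH, hbg⟩, ?_, ?_⟩, hΔ b hbTH w hw.1⟩
      · have h6 : (w.map (Nat.pair b)).map (fun x => x.unpair.2) = w := by
          rw [List.map_map]
          conv_rhs => rw [← List.map_id w]
          apply List.map_congr_left
          intro x _
          simp
        rw [h6]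
        exact hw
      · intro x hx
        obtain ⟨y, hy, rfl⟩ := List.mem_map.1 hx
        exact ⟨y, hΔ b hbTH w hw.1 y hy, rfl⟩
  · -- bad colours
    have hw : List.replicate (nb b) (enc (l ⟨0, h0Δ⟩)) ∈
        {w | w ∈ M ∧ ∀ x ∈ w, x ∈ Set.range fun x => enc (l x)} := by
      refine ⟨Or.inr (Set.mem_iUnion₂.2 ⟨_, ⟨_, rfl⟩, Set.mem_iUnion₂.2 ⟨b, ⟨hbTH, hbg⟩, rfl⟩⟩), ?_⟩
      intro x hx
      rw [List.eq_of_mem_replicate hx]
      exact ⟨_, rfl⟩
    have h3 := hM'.image_mem hw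
    rw [List.map_replicate, hl'] at h3
    exact (hnb b hbg).2 h3

end Pool.Agent.Q314.GF
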