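import Pool.Agent.Q314.GF.Code
import Pool.Agent.H109R3.CF.Src

/-!
# Words describing runs of a residue machine, and a context-free language of incorrect runs
-/

set_option autoImplicit false

namespace Pool.Agent.Q314.GF.Und

open Pool.Agent.Q314.GF Pool.Agent.H109R3.CF

/-- nonterminals -/
inductive K : Type
  | S | A | U | V
  | Z (i : ℕ)
  | Q (i : ℕ)
  | Q' (i : ℕ)
  | Y (o : Option ℕ)
  | X (j : ℕ)

/-- codes of nonterminals -/
def cd : K → ℕ
  | .S => 0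
  | .A => 1
  | .U => 2
  | .V => 3
  | .Z i => 5 * i + 10
  | .Q i => 5 * i + 11
  | .Q' i => 5 * i + 12
  | .Y none => 13
  | .Y (some p) => 5 * p + 18
  | .X j => 5 * j + 14

theorem cd_inj : Function.Injective cd := by
  intro a b h
  rcases a with _ | _ | _ | _ | i | i | i | (_ | i) | i <;>
    rcases b with _ | _ | _ | _ | j | j | j | (_ | j) | j <;>
    simp only [cd] at h <;> first | rfl | (exfalso; omega) | (have : i = j := by omega) <;> rw [this]

instance : Countable K := ⟨cd, cd_inj⟩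

/-- the word `a^n` as a sentential form -/
def ra (n : ℕ) : List (K ⊕ ℕ) := List.replicate n (Sum.inr 0)

/-- the word `a^n` -/
def rep (n : ℕ) : List ℕ := List.replicate n 0

/-- productions of the first grammar -/
inductive R1 (T : List Tr) : K × List (K ⊕ ℕ) → Prop
  | start : R1 T (.S, [Sum.inr (T.length + 1), Sum.inl .A])
  | rigid : R1 T (.S, Sum.inr (T.length + 1) :: Sum.inr (T.length + 1) ::
      (List.range (T.length + 1)).map Sum.inr)
  | a1 (i : ℕ) (h : i < T.length) : R1 T (.A, [Sum.inl (.Z i)])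
  | a2 (i : ℕ) (h : i < T.length) : R1 T (.A, [Sum.inl .U, Sum.inl (.Z i)])
  | a3 (i : ℕ) (h : i < T.length) : R1 T (.A, [Sum.inl (.Z i), Sum.inl .V])
  | a4 (i : ℕ) (h : i < T.length) : R1 T (.A, [Sum.inl .U, Sum.inl (.Z i), Sum.inl .V])
  | u1 (i : ℕ) (h : i < T.length) : R1 T (.U, [Sum.inr (i + 1)])
  | u2 (y : ℕ) (h : y < T.length + 1) : R1 T (.U, [Sum.inr y, Sum.inl .U])
  | v1 (i : ℕ) (h : i < T.length) : R1 T (.V, [Sum.inr (i + 1)])
  | v2 (y : ℕ) (h : y < T.length + 1) : R1 T (.V, [Sum.inl .V, Sum.inr y])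
  | z1 (i p s s0 r r0 : ℕ) (o : Option ℕ) (h : T[i]? = some (p, s, s0, r, r0, o)) :
      R1 T (.Z i, ra s ++ Sum.inl (.Z i) :: ra r)
  | z2 (i p s s0 r r0 : ℕ) (o : Option ℕ) (h : T[i]? = some (p, s, s0, r, r0, o)) (n k : ℕ)
      (hn : n < s) (hk : k < r) (hne : ¬ (n = s0 ∧ k = r0)) :
      R1 T (.Z i, ra n ++ Sum.inr (i + 1) :: ra k)
  | z3 (i p s s0 r r0 : ℕ) (o : Option ℕ) (h : T[i]? = some (p, s, s0, r, r0, o)) (k : ℕ)
      (hk : k < r) : R1 T (.Z i, Sum.inl (.Q i) :: ra k)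
  | z4 (i p s s0 r r0 : ℕ) (o : Option ℕ) (h : T[i]? = some (p, s, s0, r, r0, o)) (n : ℕ)
      (hn : n < s) : R1 T (.Z i, ra n ++ [Sum.inl (.Q' i)])
  | q1 (i : ℕ) (h : i < T.length) : R1 T (.Q i, [Sum.inr 0, Sum.inl (.Q i)])
  | q2 (i p s s0 r r0 : ℕ) (o : Option ℕ) (h : T[i]? = some (p, s, s0, r, r0, o)) :
      R1 T (.Q i, ra s ++ [Sum.inr (i + 1)])
  | q3 (i : ℕ) (h : i < T.length) : R1 T (.Q' i, [Sum.inl (.Q' i), Sum.inr 0])
  | q4 (i p s s0 r r0 : ℕ) (o : Option ℕ) (h : T[i]? = some (p, s, s0, r, r0, o)) :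
      R1 T (.Q' i, Sum.inr (i + 1) :: ra r)

/-- fixed additional productions of the second grammar -/
inductive R3 (T : List Tr) (p0 : ℕ) : K × List (K ⊕ ℕ) → Prop
  | x2 (i s s0 r r0 : ℕ) (o : Option ℕ) (h : T[i]? = some (p0, s, s0, r, r0, o)) :
      R3 T p0 (.X 0, [Sum.inr (i + 1), Sum.inl (.Y o)])
  | x3 (i s s0 r r0 : ℕ) (h : T[i]? = some (p0, s, s0, r, r0, none)) :
      R3 T p0 (.X 0, [Sum.inr (i + 1)])
  | y1 (i p s s0 r r0 : ℕ) (o : Option ℕ) (h : T[i]? = some (p, s, s0, r, r0, o)) :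
      R3 T p0 (.Y (some p), [Sum.inr (i + 1), Sum.inl (.Y o)])
  | y2 (i p s s0 r r0 : ℕ) (h : T[i]? = some (p, s, s0, r, r0, none)) :
      R3 T p0 (.Y (some p), [Sum.inr (i + 1)])
  | y3 (i p s s0 r r0 : ℕ) (o : Option ℕ) (h : T[i]? = some (p, s, s0, r, r0, o)) :
      R3 T p0 (.Y o, [Sum.inr 0, Sum.inl (.Y o)])
  | y4 : R3 T p0 (.Y none, [Sum.inr 0])

/-- additional productions of the second grammar -/
inductive R2 (T : List Tr) (p0 x : ℕ) : K × List (K ⊕ ℕ) → Prop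
  | s : R2 T p0 x (.S, [Sum.inr (T.length + 1), Sum.inl (.X x)])
  | x1 (j : ℕ) (h : j < x) : R2 T p0 x (.X (j + 1), [Sum.inr 0, Sum.inl (.X j)])
  | r3 {r : K × List (K ⊕ ℕ)} (h : R3 T p0 r) : R2 T p0 x r

theorem lt_of_get {T : List Tr} {i : ℕ} {t : Tr} (h : T[i]? = some t) : i < T.length :=
  (List.getElem?_eq_some_iff.1 h).1

theorem mem_of_get {T : List Tr} {i : ℕ} {t : Tr} (h : T[i]? = some t) : t ∈ T :=
  List.mem_of_getElem? h

theorem finite_R1 (T : List Tr) : {r | R1 T r}.Finite := by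
  have hB : ∀ (i : ℕ) (t : Tr), (({(.A, [Sum.inl (.Z i)]), (.A, [Sum.inl .U, Sum.inl (.Z i)]),
      (.A, [Sum.inl (.Z i), Sum.inl .V]), (.A, [Sum.inl .U, Sum.inl (.Z i), Sum.inl .V]),
      (.U, [Sum.inr (i + 1)]), (.V, [Sum.inr (i + 1)]),
      (.Z i, ra t.2.1 ++ Sum.inl (.Z i) :: ra t.2.2.2.1),
      (.Q i, [Sum.inr 0, Sum.inl (.Q i)]), (.Q i, ra t.2.1 ++ [Sum.inr (i + 1)]),
      (.Q' i, [Sum.inl (.Q' i), Sum.inr 0]), (.Q' i, Sum.inr (i + 1) :: ra t.2.2.2.1)} :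
        Set (K × List (K ⊕ ℕ))) ∪
      ((fun p : ℕ × ℕ => (K.Z i, ra p.1 ++ Sum.inr (i + 1) :: ra p.2)) ''
        (Set.Iio t.2.1 ×ˢ Set.Iio t.2.2.2.1)) ∪
      ((fun k : ℕ => (K.Z i, Sum.inl (K.Q i) :: ra k)) '' Set.Iio t.2.2.2.1) ∪
      ((fun n : ℕ => (K.Z i, ra n ++ [Sum.inl (K.Q' i)])) '' Set.Iio t.2.1)).Finite := by
    intro i t
    refine Set.Finite.union (Set.Finite.union (Set.Finite.union (Set.toFinite _) ?_) ?_) ?_
    · exact ((Set.finite_Iio _).prod (Set.finite_Iio _)).image _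
    · exact (Set.finite_Iio _).image _
    · exact (Set.finite_Iio _).image _
  have h0 : (({(.S, [Sum.inr (T.length + 1), Sum.inl .A]),
      (.S, Sum.inr (T.length + 1) :: Sum.inr (T.length + 1) ::
      (List.range (T.length + 1)).map Sum.inr)} : Set (K × List (K ⊕ ℕ))) ∪
      ((fun y : ℕ => (K.U, [Sum.inr y, Sum.inl K.U])) '' Set.Iio (T.length + 1)) ∪
      ((fun y : ℕ => (K.V, [Sum.inl K.V, Sum.inr y])) '' Set.Iio (T.length + 1)) ∪
      ⋃ i ∈ Set.Iio T.length, ⋃ t ∈ {t | t ∈ T}, (({(.A, [Sum.inl (.Z i)]),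
      (.A, [Sum.inl .U, Sum.inl (.Z i)]),
      (.A, [Sum.inl (.Z i), Sum.inl .V]), (.A, [Sum.inl .U, Sum.inl (.Z i), Sum.inl .V]),
      (.U, [Sum.inr (i + 1)]), (.V, [Sum.inr (i + 1)]),
      (.Z i, ra t.2.1 ++ Sum.inl (.Z i) :: ra t.2.2.2.1),
      (.Q i, [Sum.inr 0, Sum.inl (.Q i)]), (.Q i, ra t.2.1 ++ [Sum.inr (i + 1)]),
      (.Q' i, [Sum.inl (.Q' i), Sum.inr 0]), (.Q' i, Sum.inr (i + 1) :: ra t.2.2.2.1)} :
        Set (K × List (K ⊕ ℕ))) ∪
      ((fun p : ℕ × ℕ => (K.Z i, ra p.1 ++ Sum.inr (i + 1) :: ra p.2)) ''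
        (Set.Iio t.2.1 ×ˢ Set.Iio t.2.2.2.1)) ∪
      ((fun k : ℕ => (K.Z i, Sum.inl (K.Q i) :: ra k)) '' Set.Iio t.2.2.2.1) ∪
      ((fun n : ℕ => (K.Z i, ra n ++ [Sum.inl (K.Q' i)])) '' Set.Iio t.2.1))).Finite := by
    refine Set.Finite.union (Set.Finite.union (Set.Finite.union (Set.toFinite _) ?_) ?_) ?_
    · exact (Set.finite_Iio _).image _
    · exact (Set.finite_Iio _).image _
    · exact (Set.finite_Iio _).biUnion fun i _ => T.finite_toSet.biUnion fun t _ => hB i t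
  refine h0.subset ?_
  intro r hr
  cases hr with
  | start => left; left; left; simp
  | rigid => left; left; left; simp
  | u2 y h => left; left; right; exact ⟨y, h, rfl⟩
  | v2 y h => left; right; exact ⟨y, h, rfl⟩
  | a1 i h => exact Or.inr (Set.mem_iUnion₂.2 ⟨i, h, Set.mem_iUnion₂.2 ⟨T[i], List.getElem_mem h,
      Or.inl (Or.inl (Or.inl (by simp)))⟩⟩)
  | a2 i h => exact Or.inr (Set.mem_iUnion₂.2 ⟨i, h, Set.mem_iUnion₂.2 ⟨T[i], List.getElem_mem h,
      Or.inl (Or.inl (Or.inl (by simp)))⟩⟩)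
  | a3 i h => exact Or.inr (Set.mem_iUnion₂.2 ⟨i, h, Set.mem_iUnion₂.2 ⟨T[i], List.getElem_mem h,
      Or.inl (Or.inl (Or.inl (by simp)))⟩⟩)
  | a4 i h => exact Or.inr (Set.mem_iUnion₂.2 ⟨i, h, Set.mem_iUnion₂.2 ⟨T[i], List.getElem_mem h,
      Or.inl (Or.inl (Or.inl (by simp)))⟩⟩)
  | u1 i h => exact Or.inr (Set.mem_iUnion₂.2 ⟨i, h, Set.mem_iUnion₂.2 ⟨T[i], List.getElem_mem h,
      Or.inl (Or.inl (Or.inl (by simp)))⟩⟩)
  | v1 i h => exact Or.inr (Set.mem_iUnion₂.2 ⟨i, h, Set.mem_iUnion₂.2 ⟨T[i], List.getElem_mem h,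
      Or.inl (Or.inl (Or.inl (by simp)))⟩⟩)
  | q1 i h => exact Or.inr (Set.mem_iUnion₂.2 ⟨i, h, Set.mem_iUnion₂.2 ⟨T[i], List.getElem_mem h,
      Or.inl (Or.inl (Or.inl (by simp)))⟩⟩)
  | q3 i h => exact Or.inr (Set.mem_iUnion₂.2 ⟨i, h, Set.mem_iUnion₂.2 ⟨T[i], List.getElem_mem h,
      Or.inl (Or.inl (Or.inl (by simp)))⟩⟩)
  | z1 i p s s0 r r0 o h => exact Or.inr (Set.mem_iUnion₂.2 ⟨i, lt_of_get h,
      Set.mem_iUnion₂.2 ⟨_, mem_of_get h, Or.inl (Or.inl (Or.inl (by simp)))⟩⟩)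
  | q2 i p s s0 r r0 o h => exact Or.inr (Set.mem_iUnion₂.2 ⟨i, lt_of_get h,
      Set.mem_iUnion₂.2 ⟨_, mem_of_get h, Or.inl (Or.inl (Or.inl (by simp)))⟩⟩)
  | q4 i p s s0 r r0 o h => exact Or.inr (Set.mem_iUnion₂.2 ⟨i, lt_of_get h,
      Set.mem_iUnion₂.2 ⟨_, mem_of_get h, Or.inl (Or.inl (Or.inl (by simp)))⟩⟩)
  | z2 i p s s0 r r0 o h n k hn hk hne => exact Or.inr (Set.mem_iUnion₂.2 ⟨i, lt_of_get h,
      Set.mem_iUnion₂.2 ⟨_, mem_of_get h, Or.inl (Or.inl (Or.inr ⟨(n, k), ⟨hn, hk⟩, rfl⟩))⟩⟩)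
  | z3 i p s s0 r r0 o h k hk => exact Or.inr (Set.mem_iUnion₂.2 ⟨i, lt_of_get h,
      Set.mem_iUnion₂.2 ⟨_, mem_of_get h, Or.inl (Or.inr ⟨k, hk, rfl⟩)⟩⟩)
  | z4 i p s s0 r r0 o h n hn => exact Or.inr (Set.mem_iUnion₂.2 ⟨i, lt_of_get h,
      Set.mem_iUnion₂.2 ⟨_, mem_of_get h, Or.inr ⟨n, hn, rfl⟩⟩⟩)

theorem finite_R3 (T : List Tr) (p0 : ℕ) : {r | R3 T p0 r}.Finite := by
  have h0 : (({(K.Y none, [Sum.inr 0])} : Set (K × List (K ⊕ ℕ))) ∪
      ⋃ i ∈ Set.Iio T.length, ⋃ t ∈ {t | t ∈ T}, ({(.X 0, [Sum.inr (i + 1), Sum.inl (.Y t.2.2.2.2.2)]),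
      (.X 0, [Sum.inr (i + 1)]), (.Y (some t.1), [Sum.inr (i + 1), Sum.inl (.Y t.2.2.2.2.2)]),
      (.Y (some t.1), [Sum.inr (i + 1)]), (.Y t.2.2.2.2.2, [Sum.inr 0, Sum.inl (.Y t.2.2.2.2.2)])} :
        Set (K × List (K ⊕ ℕ)))).Finite :=
    (Set.finite_singleton _).union ((Set.finite_Iio _).biUnion fun i _ =>
      T.finite_toSet.biUnion fun t _ => Set.toFinite _)
  refine h0.subset ?_
  intro r hr
  cases hr with
  | y4 => left; rfl
  | x2 i s s0 r r0 o h => exact Or.inr (Set.mem_iUnion₂.2 ⟨i, lt_of_get h,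
      Set.mem_iUnion₂.2 ⟨_, mem_of_get h, by simp⟩⟩)
  | x3 i s s0 r r0 h => exact Or.inr (Set.mem_iUnion₂.2 ⟨i, lt_of_get h,
      Set.mem_iUnion₂.2 ⟨_, mem_of_get h, by simp⟩⟩)
  | y1 i p s s0 r r0 o h => exact Or.inr (Set.mem_iUnion₂.2 ⟨i, lt_of_get h,
      Set.mem_iUnion₂.2 ⟨_, mem_of_get h, by simp⟩⟩)
  | y2 i p s s0 r r0 h => exact Or.inr (Set.mem_iUnion₂.2 ⟨i, lt_of_get h,
      Set.mem_iUnion₂.2 ⟨_, mem_of_get h, by simp⟩⟩)
  | y3 i p s s0 r r0 o h => exact Or.inr (Set.mem_iUnion₂.2 ⟨i, lt_of_get h,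
      Set.mem_iUnion₂.2 ⟨_, mem_of_get h, by simp⟩⟩)

/-! ### Meaning of the nonterminals -/

/-- the relation of a transition -/
def Rel (t : Tr) (n k : ℕ) : Prop :=
  ∃ u, n = t.2.1 * u + t.2.2.1 ∧ k = t.2.2.2.1 * u + t.2.2.2.2.1

/-- `w` contains an incorrect transition -/
def Bad (T : List Tr) (w : List ℕ) : Prop :=
  ∃ (U : List ℕ) (i n k : ℕ) (V : List ℕ) (t : Tr), T[i]? = some t ∧
    w = U ++ (rep n ++ (i + 1) :: (rep k ++ V)) ∧ ¬ Rel t n k ∧
    (U = [] ∨ ∃ u j, U = u ++ [j + 1]) ∧ (V = [] ∨ ∃ u j, V = (j + 1) :: u)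

/-- the sequences of transitions from a state which lead to the final state -/
inductive Ch (T : List Tr) : Option ℕ → List ℕ → Prop
  | nil : Ch T none []
  | cons (i p s s0 r r0 : ℕ) (o : Option ℕ) (h : T[i]? = some (p, s, s0, r, r0, o)) (n : ℕ)
      (v : List ℕ) (hv : Ch T o v) : Ch T (some p) ((i + 1) :: (rep n ++ v))

/-- all letters are less than `m` -/
def Le (m : ℕ) (w : List ℕ) : Prop := ∀ y ∈ w, y < m

theorem le_rep {m n : ℕ} (hm : 0 < m) : Le m (rep n) := by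
  intro y hy
  rw [List.eq_of_mem_replicate hy]
  exact hm

theorem le_append {m : ℕ} {u v : List ℕ} : Le m (u ++ v) ↔ Le m u ∧ Le m v := by
  unfold Le
  constructor
  · intro h
    exact ⟨fun y hy => h y (List.mem_append_left _ hy), fun y hy => h y (List.mem_append_right _ hy)⟩
  · rintro ⟨h1, h2⟩ y hy
    rcases List.mem_append.1 hy with hy | hy
    · exact h1 y hy
    · exact h2 y hy

theorem le_cons {m x : ℕ} {v : List ℕ} : Le m (x :: v) ↔ x < m ∧ Le m v := by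
  unfold Le
  simp

/-- the meaning of the nonterminals -/
def sem (T : List Tr) (p0 : ℕ) : K → Set (List ℕ)
  | .S => Set.univ
  | .A => {w | Bad T w ∧ Le (T.length + 1) w}
  | .U => {w | (∃ u j, w = u ++ [j + 1]) ∧ Le (T.length + 1) w}
  | .V => {w | (∃ u j, w = (j + 1) :: u) ∧ Le (T.length + 1) w}
  | .Z i => {w | ∃ n k t, T[i]? = some t ∧ w = rep n ++ (i + 1) :: rep k ∧ ¬ Rel t n k}
  | .Q i => {w | ∃ n, w = rep n ++ [i + 1] ∧ ∀ t, T[i]? = some t → t.2.1 ≤ n}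
  | .Q' i => {w | ∃ k, w = (i + 1) :: rep k ∧ ∀ t, T[i]? = some t → t.2.2.2.1 ≤ k}
  | .Y o => {w | ∃ n v, w = rep n ++ v ∧ Ch T o v}
  | .X j => {w | ∃ v, w = rep j ++ v ∧ Ch T (some p0) v}

theorem cat_ra (s : K → Set (List ℕ)) (n : ℕ) (β : List (K ⊕ ℕ)) (w : List ℕ) :
    w ∈ Cat s (ra n ++ β) ↔ ∃ v ∈ Cat s β, w = rep n ++ v := by
  induction n generalizing w with
  | zero => simp [ra, rep]
  | succ n ih =>
    have e : ra (n + 1) ++ β = Sum.inr 0 :: (ra n ++ β) := rfl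
    rw [e]
    constructor
    · rintro ⟨v, hv, rfl⟩
      obtain ⟨v', hv', rfl⟩ := (ih v).1 hv
      exact ⟨v', hv', rfl⟩
    · rintro ⟨v, hv, rfl⟩
      exact ⟨rep n ++ v, (ih _).2 ⟨v, hv, rfl⟩, rfl⟩

theorem cat_ra' (s : K → Set (List ℕ)) (n : ℕ) (w : List ℕ) :
    w ∈ Cat s (ra n) ↔ w = rep n := by
  have := cat_ra s n [] w
  rw [List.append_nil] at this
  rw [this]
  constructor
  · rintro ⟨v, hv, rfl⟩
    have hv' : v = [] := hv
    rw [hv', List.append_nil]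
  · rintro rfl
    exact ⟨[], rfl, by simp⟩

theorem rep_add (m n : ℕ) : rep (m + n) = rep m ++ rep n := List.replicate_add ..

theorem rep_succ (n : ℕ) : rep (n + 1) = rep n ++ [0] := List.replicate_succ'

/-- the conditions on the transitions -/
def Ok (T : List Tr) : Prop := ∀ t ∈ T, t.2.2.1 < t.2.1 ∧ t.2.2.2.2.1 < t.2.2.2.1

theorem R1_sem {T : List Tr} (hT : Ok T) (p0 : ℕ) (B : K) (γ : List (K ⊕ ℕ)) (hr : R1 T (B, γ)) :
    Cat (sem T p0) γ ⊆ sem T p0 B := by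
  have hZ : ∀ i, ∀ w ∈ sem T p0 (.Z i), Le (T.length + 1) w := by
    rintro i w ⟨n, k, t, ht, rfl, _⟩
    rw [le_append, le_cons]
    have := lt_of_get ht
    exact ⟨le_rep (by omega), by omega, le_rep (by omega)⟩
  intro w hw
  cases hr with
  | start => trivial
  | rigid => trivial
  | a1 i h =>
    obtain ⟨u, hu, v, hv, rfl⟩ := hw
    have hv' : v = [] := hv
    subst hv'
    rw [List.append_nil]
    refine ⟨?_, hZ i u hu⟩
    obtain ⟨n, k, t, ht, rfl, hR⟩ := hu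
    exact ⟨[], i, n, k, [], t, ht, by simp, hR, Or.inl rfl, Or.inl rfl⟩
  | a2 i h =>
    obtain ⟨u1, hu1, v1, ⟨u, hu, v, hv, rfl⟩, rfl⟩ := hw
    have hv' : v = [] := hv
    subst hv'
    rw [List.append_nil]
    refine ⟨?_, le_append.2 ⟨hu1.2, hZ i u hu⟩⟩
    obtain ⟨n, k, t, ht, rfl, hR⟩ := hu
    exact ⟨u1, i, n, k, [], t, ht, by simp, hR, Or.inr hu1.1, Or.inl rfl⟩
  | a3 i h =>
    obtain ⟨u, hu, v1, ⟨u2, hu2, v, hv, rfl⟩, rfl⟩ := hw
    have hv' : v = [] := hv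
    subst hv'
    rw [List.append_nil]
    refine ⟨?_, le_append.2 ⟨hZ i u hu, hu2.2⟩⟩
    obtain ⟨n, k, t, ht, rfl, hR⟩ := hu
    exact ⟨[], i, n, k, u2, t, ht, by simp, hR, Or.inl rfl, Or.inr hu2.1⟩
  | a4 i h =>
    obtain ⟨u1, hu1, v0, ⟨u, hu, v1, ⟨u2, hu2, v, hv, rfl⟩, rfl⟩, rfl⟩ := hw
    have hv' : v = [] := hv
    subst hv'
    rw [List.append_nil]
    refine ⟨?_, le_append.2 ⟨hu1.2, le_append.2 ⟨hZ i u hu, hu2.2⟩⟩⟩
    obtain ⟨n, k, t, ht, rfl, hR⟩ := hu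
    exact ⟨u1, i, n, k, u2, t, ht, by simp, hR, Or.inr hu1.1, Or.inr hu2.1⟩
  | u1 i h =>
    obtain ⟨v, hv, rfl⟩ := hw
    have hv' : v = [] := hv
    subst hv'
    exact ⟨⟨[], i, rfl⟩, by rw [le_cons]; exact ⟨by omega, by simp [Le]⟩⟩
  | v1 i h =>
    obtain ⟨v, hv, rfl⟩ := hw
    have hv' : v = [] := hv
    subst hv'
    exact ⟨⟨[], i, rfl⟩, by rw [le_cons]; exact ⟨by omega, by simp [Le]⟩⟩
  | u2 y h =>
    obtain ⟨_, ⟨u, ⟨⟨u', j, rfl⟩, hu⟩, v, hv, rfl⟩, rfl⟩ := hw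
    have hv' : v = [] := hv
    subst hv'
    rw [List.append_nil]
    exact ⟨⟨y :: u', j, rfl⟩, le_cons.2 ⟨h, hu⟩⟩
  | v2 y h =>
    obtain ⟨u, ⟨⟨u', j, rfl⟩, hu⟩, v0, ⟨v, hv, rfl⟩, rfl⟩ := hw
    have hv' : v = [] := hv
    subst hv'
    exact ⟨⟨u' ++ [y], j, rfl⟩, le_append.2 ⟨hu, le_cons.2 ⟨h, by simp [Le]⟩⟩⟩
  | z1 i p s s0 r r0 o h =>
    obtain ⟨v, ⟨u, ⟨n, k, t, ht, rfl, hR⟩, v', hv', rfl⟩, rfl⟩ := (cat_ra _ _ _ _).1 hw
    rw [cat_ra'] at hv'
    subst hv'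
    rw [h] at ht
    cases ht
    refine ⟨s + n, k + r, _, h, by simp [rep_add], ?_⟩
    rintro ⟨u, e1, e2⟩
    simp only at e1 e2
    have h1 := hT _ (mem_of_get h)
    simp only at h1
    cases u with
    | zero => rw [Nat.mul_zero] at e1; omega
    | succ u =>
      apply hR
      refine ⟨u, ?_, ?_⟩
      · simp only; rw [Nat.mul_succ] at e1; omega
      · simp only; rw [Nat.mul_succ] at e2; omega
  | z2 i p s s0 r r0 o h n k hn hk hne =>
    obtain ⟨v, ⟨v', hv', rfl⟩, rfl⟩ := (cat_ra _ _ _ _).1 hw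
    rw [cat_ra'] at hv'
    subst hv'
    refine ⟨n, k, _, h, rfl, ?_⟩
    rintro ⟨u, e1, e2⟩
    simp only at e1 e2
    cases u with
    | zero => exact hne ⟨by simpa using e1, by simpa using e2⟩
    | succ u => rw [Nat.mul_succ] at e1; omega
  | z3 i p s s0 r r0 o h k hk =>
    obtain ⟨u, ⟨n, rfl, hn⟩, v, hv, rfl⟩ := hw
    have hv' := (cat_ra' _ _ _).1 hv
    subst hv'
    have hn' := hn _ h
    simp only at hn'
    refine ⟨n, k, _, h, by simp, ?_⟩
    rintro ⟨u, e1, e2⟩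
    simp only at e1 e2
    have h1 := hT _ (mem_of_get h)
    simp only at h1
    cases u with
    | zero => rw [Nat.mul_zero] at e1; omega
    | succ u => rw [Nat.mul_succ] at e2; omega
  | z4 i p s s0 r r0 o h n hn =>
    obtain ⟨v, ⟨u, ⟨k, rfl, hk⟩, v', hv', rfl⟩, rfl⟩ := (cat_ra _ _ _ _).1 hw
    have hv'' : v' = [] := hv'
    subst hv''
    have hk' := hk _ h
    simp only at hk'
    refine ⟨n, k, _, h, by simp, ?_⟩
    rintro ⟨u, e1, e2⟩
    simp only at e1 e2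
    have h1 := hT _ (mem_of_get h)
    simp only at h1
    cases u with
    | zero => rw [Nat.mul_zero] at e2; omega
    | succ u => rw [Nat.mul_succ] at e1; omega
  | q1 i h =>
    obtain ⟨_, ⟨u, ⟨n, rfl, hn⟩, v, hv, rfl⟩, rfl⟩ := hw
    have hv' : v = [] := hv
    subst hv'
    exact ⟨n + 1, by rw [List.append_nil]; rfl, fun t ht => (hn t ht).trans (Nat.le_succ n)⟩
  | q2 i p s s0 r r0 o h =>
    obtain ⟨v, ⟨v', hv', rfl⟩, rfl⟩ := (cat_ra _ _ _ _).1 hw
    have hv'' : v' = [] := hv'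
    subst hv''
    refine ⟨s, rfl, fun t ht => ?_⟩
    rw [h] at ht
    cases ht
    exact le_rfl
  | q3 i h =>
    obtain ⟨u, ⟨n, rfl, hn⟩, v, ⟨v', hv', rfl⟩, rfl⟩ := hw
    have hv'' : v' = [] := hv'
    subst hv''
    exact ⟨n + 1, by rw [rep_succ]; rfl, fun t ht => (hn t ht).trans (Nat.le_succ n)⟩
  | q4 i p s s0 r r0 o h =>
    obtain ⟨v', hv', rfl⟩ := hw
    have hv'' := (cat_ra' _ _ _).1 hv'
    subst hv''
    refine ⟨r, rfl, fun t ht => ?_⟩
    rw [h] at ht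
    cases ht
    exact le_rfl

theorem R3_sem {T : List Tr} (p0 : ℕ) (B : K) (γ : List (K ⊕ ℕ)) (hr : R3 T p0 (B, γ)) :
    Cat (sem T p0) γ ⊆ sem T p0 B := by
  intro w hw
  cases hr with
  | x2 i s s0 r r0 o h =>
    obtain ⟨_, ⟨u, ⟨n, v', rfl, hv'⟩, v, hv, rfl⟩, rfl⟩ := hw
    have hv'' : v = [] := hv
    subst hv''
    exact ⟨_, rfl, by rw [List.append_nil]; exact .cons i p0 s s0 r r0 o h n v' hv'⟩
  | x3 i s s0 r r0 h =>
    obtain ⟨v, hv, rfl⟩ := hw
    have hv'' : v = [] := hv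
    subst hv''
    exact ⟨_, rfl, .cons i p0 s s0 r r0 none h 0 [] .nil⟩
  | y1 i p s s0 r r0 o h =>
    obtain ⟨_, ⟨u, ⟨n, v', rfl, hv'⟩, v, hv, rfl⟩, rfl⟩ := hw
    have hv'' : v = [] := hv
    subst hv''
    exact ⟨0, _, rfl, by rw [List.append_nil]; exact .cons i p s s0 r r0 o h n v' hv'⟩
  | y2 i p s s0 r r0 h =>
    obtain ⟨v, hv, rfl⟩ := hw
    have hv'' : v = [] := hv
    subst hv''
    exact ⟨0, _, rfl, .cons i p s s0 r r0 none h 0 [] .nil⟩
  | y3 i p s s0 r r0 o h =>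
    obtain ⟨_, ⟨u, ⟨n, v', rfl, hv'⟩, v, hv, rfl⟩, rfl⟩ := hw
    have hv'' : v = [] := hv
    subst hv''
    exact ⟨n + 1, v', by rw [List.append_nil]; rfl, hv'⟩
  | y4 =>
    obtain ⟨v, hv, rfl⟩ := hw
    have hv'' : v = [] := hv
    subst hv''
    exact ⟨1, [], rfl, .nil⟩

theorem R2_sem {T : List Tr} (p0 x : ℕ) (B : K) (γ : List (K ⊕ ℕ)) (hr : R2 T p0 x (B, γ)) :
    Cat (sem T p0) γ ⊆ sem T p0 B := by
  intro w hw
  cases hr with
  | s => trivial
  | x1 j h =>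
    obtain ⟨_, ⟨u, ⟨v', rfl, hv'⟩, v, hv, rfl⟩, rfl⟩ := hw
    have hv'' : v = [] := hv
    subst hv''
    exact ⟨v', by rw [List.append_nil]; rfl, hv'⟩
  | r3 h => exact R3_sem p0 B γ h hw

/-- the words generated from a nonterminal of the first grammar -/
theorem R1_sound {T : List Tr} (hT : Ok T) (p0 : ℕ) {B : K} {w : List ℕ}
    (h : Yld {r | R1 T r} [Sum.inl B] w) : w ∈ sem T p0 B := by
  obtain ⟨u, hu, v, hv, rfl⟩ := Yld.cat (fun B γ hr => R1_sem hT p0 B γ hr) h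
  have hv'' : v = [] := hv
  subst hv''
  rw [List.append_nil]
  exact hu

theorem R2_sound {T : List Tr} (p0 x : ℕ) {B : K} {w : List ℕ}
    (h : Yld {r | R2 T p0 x r} [Sum.inl B] w) : w ∈ sem T p0 B := by
  obtain ⟨u, hu, v, hv, rfl⟩ := Yld.cat (fun B γ hr => R2_sem p0 x B γ hr) h
  have hv'' : v = [] := hv
  subst hv''
  rw [List.append_nil]
  exact hu

/-! ### Completeness -/

theorem yld_ra {P : Set (K × List (K ⊕ ℕ))} (n : ℕ) : Yld P (ra n) (rep n) := by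
  induction n with
  | zero => exact .nil
  | succ n ih => exact .ter 0 ih

theorem yld_rule {P : Set (K × List (K ⊕ ℕ))} {B : K} {γ : List (K ⊕ ℕ)} {w : List ℕ}
    (h : (B, γ) ∈ P) (hw : Yld P γ w) : Yld P [Sum.inl B] w := yld_single.2 ⟨γ, h, hw⟩

theorem yld_Q {T : List Tr} {i : ℕ} {t : Tr} (h : T[i]? = some t) (d : ℕ) :
    Yld {r | R1 T r} [Sum.inl (.Q i)] (rep (t.2.1 + d) ++ [i + 1]) := by
  induction d with
  | zero =>
    obtain ⟨p, s, s0, r, r0, o⟩ := t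
    exact yld_rule (R1.q2 i p s s0 r r0 o h) ((yld_ra s).append (.ter _ .nil))
  | succ d ih =>
    exact yld_rule (R1.q1 i (lt_of_get h)) (.ter 0 ih)

theorem yld_Q' {T : List Tr} {i : ℕ} {t : Tr} (h : T[i]? = some t) (d : ℕ) :
    Yld {r | R1 T r} [Sum.inl (.Q' i)] ((i + 1) :: rep (t.2.2.2.1 + d)) := by
  induction d with
  | zero =>
    obtain ⟨p, s, s0, r, r0, o⟩ := t
    exact yld_rule (R1.q4 i p s s0 r r0 o h) (.ter _ (yld_ra r))
  | succ d ih =>
    have h1 : (i + 1) :: rep (t.2.2.2.1 + (d + 1)) = ((i + 1) :: rep (t.2.2.2.1 + d)) ++ [0] := by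
      rw [← Nat.add_assoc, rep_succ]
      rfl
    rw [h1]
    exact yld_rule (R1.q3 i (lt_of_get h)) (ih.append (.ter 0 .nil))

theorem yld_Z {T : List Tr} {i : ℕ} {t : Tr} (h : T[i]? = some t) (h0 : t.2.2.1 < t.2.1) :
    ∀ (n k : ℕ), ¬ Rel t n k → Yld {r | R1 T r} [Sum.inl (.Z i)] (rep n ++ (i + 1) :: rep k) := by
  obtain ⟨p, s, s0, r, r0, o⟩ := t
  simp only at h0
  intro n
  induction n using Nat.strong_induction_on with
  | _ n ih =>
    intro k hR
    by_cases hn : n < s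
    · by_cases hk : k < r
      · refine yld_rule (R1.z2 i p s s0 r r0 o h n k hn hk ?_) ((yld_ra n).append
          (.ter _ (yld_ra k)))
        rintro ⟨rfl, rfl⟩
        exact hR ⟨0, by simp, by simp⟩
      · obtain ⟨d, rfl⟩ := Nat.exists_eq_add_of_le (Nat.le_of_not_lt hk)
        exact yld_rule (R1.z4 i p s s0 r r0 o h n hn) ((yld_ra n).append (yld_Q' h d))
    · obtain ⟨d, rfl⟩ := Nat.exists_eq_add_of_le (Nat.le_of_not_lt hn)
      by_cases hk : k < r
      · have := yld_rule (P := {r | R1 T r}) (R1.z3 i p s s0 r r0 o h k hk) ((yld_Q h d).append (yld_ra k))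
        simpa only [List.append_assoc, List.cons_append, List.nil_append, List.append_nil] using this
      · obtain ⟨e, rfl⟩ := Nat.exists_eq_add_of_le (Nat.le_of_not_lt hk)
        have h1 : ¬ Rel (p, s, s0, r, r0, o) d e := by
          rintro ⟨u, e1, e2⟩
          apply hR
          refine ⟨u + 1, ?_, ?_⟩
          · simp only at e1 ⊢; rw [Nat.mul_succ]; omega
          · simp only at e2 ⊢; rw [Nat.mul_succ]; omega
        have h2 := ih d (by omega) e h1
        have h3 : rep (s + d) ++ (i + 1) :: rep (r + e) =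
            rep s ++ ((rep d ++ (i + 1) :: rep e) ++ rep r) := by
          rw [rep_add, Nat.add_comm r e, rep_add]
          simp
        rw [h3]
        exact yld_rule (R1.z1 i p s s0 r r0 o h) ((yld_ra s).append (h2.append (yld_ra r)))

theorem yld_U {T : List Tr} (u : List ℕ) (j : ℕ) (hu : Le (T.length + 1) u)
    (hj : j < T.length) : Yld {r | R1 T r} [Sum.inl .U] (u ++ [j + 1]) := by
  induction u with
  | nil => exact yld_rule (R1.u1 j hj) (.ter _ .nil)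
  | cons y u ih =>
    rw [le_cons] at hu
    exact yld_rule (R1.u2 y hu.1) (.ter _ (ih hu.2))

theorem yld_V {T : List Tr} (u : List ℕ) (j : ℕ) (hu : Le (T.length + 1) u)
    (hj : j < T.length) : Yld {r | R1 T r} [Sum.inl .V] ((j + 1) :: u) := by
  induction u using List.reverseRecOn with
  | nil => exact yld_rule (R1.v1 j hj) (.ter _ .nil)
  | append_singleton u y ih =>
    rw [le_append, le_cons] at hu
    exact yld_rule (R1.v2 y hu.2.1) ((ih hu.1).append (.ter _ .nil))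

theorem yld_A {T : List Tr} (hT : Ok T) {w : List ℕ} (hw : Bad T w)
    (hl : Le (T.length + 1) w) : Yld {r | R1 T r} [Sum.inl .A] w := by
  obtain ⟨U, i, n, k, V, t, ht, rfl, hR, hU, hV⟩ := hw
  have hi := lt_of_get ht
  have hZ := yld_Z ht (hT t (mem_of_get ht)).1 n k hR
  rw [le_append, le_append, le_cons, le_append] at hl
  obtain ⟨l1, _, _, _, l2⟩ := hl
  rcases hU with rfl | ⟨u, j, rfl⟩
  · rcases hV with rfl | ⟨v, j', rfl⟩
    · have := yld_rule (P := {r | R1 T r}) (R1.a1 i hi) hZ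
      simpa only [List.append_assoc, List.cons_append, List.nil_append, List.append_nil] using this
    · rw [le_cons] at l2
      have := yld_rule (P := {r | R1 T r}) (R1.a3 i hi) (hZ.append (yld_V v j' l2.2 (by omega)))
      simpa only [List.append_assoc, List.cons_append, List.nil_append, List.append_nil] using this
  · rw [le_append, le_cons] at l1
    rcases hV with rfl | ⟨v, j', rfl⟩
    · have := yld_rule (P := {r | R1 T r}) (R1.a2 i hi) ((yld_U u j l1.1 (by omega)).append hZ)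
      simpa only [List.append_assoc, List.cons_append, List.nil_append, List.append_nil] using this
    · rw [le_cons] at l2
      have := yld_rule (P := {r | R1 T r}) (R1.a4 i hi) ((yld_U u j l1.1 (by omega)).append
        (hZ.append (yld_V v j' l2.2 (by omega))))
      simpa only [List.append_assoc, List.cons_append, List.nil_append, List.append_nil] using this

theorem yld_Y {T : List Tr} {p0 x : ℕ} {o : Option ℕ} {v : List ℕ} (hv : Ch T o v) :
    ∀ (i p s s0 r r0 : ℕ), T[i]? = some (p, s, s0, r, r0, o) → ∀ n : ℕ, rep n ++ v ≠ [] →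
    Yld {r | R2 T p0 x r} [Sum.inl (.Y o)] (rep n ++ v) := by
  induction hv with
  | nil =>
    intro i p s s0 r r0 h n
    induction n with
    | zero => intro h; simp [rep] at h
    | succ n ih =>
      intro _
      cases n with
      | zero => exact yld_rule (R2.r3 R3.y4) (.ter 0 .nil)
      | succ n =>
        exact yld_rule (R2.r3 (R3.y3 i p s s0 r r0 none h)) (.ter 0 (ih (by simp [rep])))
  | @cons i' p' s' s0' r' r0' o' h' n' v' hv' ih' =>
    intro i p s s0 r r0 h n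
    induction n with
    | zero =>
      intro _
      by_cases he : rep n' ++ v' = []
      · obtain ⟨e1, e2⟩ := List.append_eq_nil_iff.1 he
        subst e2
        cases hv'
        have e3 : n' = 0 := by simpa [rep] using e1
        subst e3
        exact yld_rule (R2.r3 (R3.y2 i' p' s' s0' r' r0' h')) (.ter _ .nil)
      · exact yld_rule (R2.r3 (R3.y1 i' p' s' s0' r' r0' o' h'))
          (.ter _ (ih' i' p' s' s0' r' r0' h' n' he))
    | succ n ih =>
      intro _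
      exact yld_rule (R2.r3 (R3.y3 i p s s0 r r0 _ h)) (.ter 0 (ih (by simp)))

theorem yld_X {T : List Tr} {p0 x : ℕ} {v : List ℕ} (hv : Ch T (some p0) v) (j : ℕ) (hj : j ≤ x) :
    Yld {r | R2 T p0 x r} [Sum.inl (.X j)] (rep j ++ v) := by
  induction j with
  | zero =>
    cases hv with
    | cons i p s s0 r r0 o h n v hv =>
      by_cases he : rep n ++ v = []
      · obtain ⟨e1, e2⟩ := List.append_eq_nil_iff.1 he
        subst e2
        cases hv
        have e3 : n = 0 := by simpa [rep] using e1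
        subst e3
        exact yld_rule (R2.r3 (R3.x3 i s s0 r r0 h)) (.ter _ .nil)
      · exact yld_rule (R2.r3 (R3.x2 i s s0 r r0 o h)) (.ter _ (yld_Y hv i p0 s s0 r r0 h n he))
  | succ j ih => exact yld_rule (R2.x1 j (by omega)) (.ter 0 (ih (by omega)))

/-! ### Runs and incorrect words -/

theorem ch_le {T : List Tr} {o : Option ℕ} {v : List ℕ} (h : Ch T o v) : Le (T.length + 1) v := by
  induction h with
  | nil => simp [Le]
  | cons i p s s0 r r0 o h n v _ ih =>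
    rw [le_cons, le_append]
    have := lt_of_get h
    exact ⟨by omega, le_rep (by omega), ih⟩

theorem ch_head {T : List Tr} {o : Option ℕ} {v : List ℕ} (h : Ch T o v) :
    v = [] ∨ ∃ u j, v = (j + 1) :: u := by
  cases h with
  | nil => left; rfl
  | cons i p s s0 r r0 o h n v hv => right; exact ⟨_, i, rfl⟩

theorem split_letter {n : ℕ} {i j : ℕ} {y u z : List ℕ}
    (h : rep n ++ (i + 1) :: y = u ++ (j + 1) :: z) :
    (u = rep n ∧ i = j ∧ y = z) ∨ ∃ u', u = rep n ++ (i + 1) :: u' ∧ y = u' ++ (j + 1) :: z := by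
  induction n generalizing u with
  | zero =>
    cases u with
    | nil =>
      simp only [rep, List.replicate_zero, List.nil_append, List.cons.injEq] at h
      left
      exact ⟨rfl, by omega, h.2⟩
    | cons a u =>
      simp only [rep, List.replicate_zero, List.nil_append, List.cons_append,
        List.cons.injEq] at h
      right
      refine ⟨u, ?_, h.2⟩
      rw [← h.1]
      rfl
  | succ n ih =>
    have e : rep (n + 1) ++ (i + 1) :: y = 0 :: (rep n ++ (i + 1) :: y) := rfl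
    rw [e] at h
    cases u with
    | nil => simp at h
    | cons a u =>
      simp only [List.cons_append, List.cons.injEq] at h
      obtain ⟨rfl, h⟩ := h
      rcases ih h with ⟨rfl, h1, h2⟩ | ⟨u', rfl, h2⟩
      · left; exact ⟨rfl, h1, h2⟩
      · right; exact ⟨u', rfl, h2⟩

theorem rep_eq_of {n k : ℕ} {V V' : List ℕ} (h : rep n ++ V = rep k ++ V')
    (hV : V = [] ∨ ∃ u j, V = (j + 1) :: u) (hV' : V' = [] ∨ ∃ u j, V' = (j + 1) :: u) :
    n = k := by
  induction n generalizing k with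
  | zero =>
    cases k with
    | zero => rfl
    | succ k =>
      have e : rep (k + 1) ++ V' = 0 :: (rep k ++ V') := rfl
      rw [e] at h
      simp only [rep, List.replicate_zero, List.nil_append] at h
      rcases hV with rfl | ⟨u, j, rfl⟩
      · simp at h
      · simp at h
  | succ n ih =>
    have e : rep (n + 1) ++ V = 0 :: (rep n ++ V) := rfl
    rw [e] at h
    cases k with
    | zero =>
      simp only [rep, List.replicate_zero, List.nil_append] at h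
      rcases hV' with rfl | ⟨u, j, rfl⟩
      · simp at h
      · simp at h
    | succ k =>
      have e : rep (k + 1) ++ V' = 0 :: (rep k ++ V') := rfl
      rw [e, List.cons.injEq] at h
      rw [ih h.2]

theorem good_of_halts {T : List Tr} {o : Option ℕ} {n : ℕ} (h : HaltsT T o n) :
    ∃ v, Ch T o v ∧ ¬ Bad T (rep n ++ v) := by
  induction h with
  | stop x =>
    refine ⟨[], .nil, ?_⟩
    rintro ⟨U, i, n, k, V, t, ht, he, _⟩
    have h1 : (i + 1) ∈ rep x ++ [] := by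
      rw [he]
      simp
    rw [List.append_nil] at h1
    have := List.eq_of_mem_replicate h1
    omega
  | step p s s0 r r0 o hmem t _ ih =>
    obtain ⟨v', hv', hb⟩ := ih
    obtain ⟨i, hi⟩ := List.getElem?_of_mem hmem
    refine ⟨_, .cons i p s s0 r r0 o hi (r * t + r0) v' hv', ?_⟩
    rintro ⟨U, i', n', k', V, t', ht', he, hR, hU, hV⟩
    rcases hU with rfl | ⟨u, j, rfl⟩
    · rw [List.nil_append] at he
      rcases split_letter he with ⟨e1, e2, e3⟩ | ⟨u', e1, e2⟩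
      · subst e2
        rw [hi] at ht'
        cases ht'
        have e4 := rep_eq_of e3 (ch_head hv') hV
        have e5 : n' = s * t + s0 := by
          have := congrArg List.length e1
          simpa [rep] using this
        exact hR ⟨t, e5, e4.symm⟩
      · have h1 : (i + 1) ∈ rep n' := by rw [e1]; simp
        have := List.eq_of_mem_replicate h1
        omega
    · rw [List.append_assoc, List.singleton_append] at he
      rcases split_letter he with ⟨_, _, e3⟩ | ⟨u', _, e2⟩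
      · exact hb ⟨[], i', n', k', V, t', ht', e3, hR, Or.inl rfl, hV⟩
      · refine hb ⟨u' ++ [j + 1], i', n', k', V, t', ht', ?_, hR, Or.inr ⟨u', j, rfl⟩, hV⟩
        rw [e2]
        simp

theorem halts_of_good {T : List Tr} {o : Option ℕ} {v : List ℕ} (h : Ch T o v) :
    ∀ n, ¬ Bad T (rep n ++ v) → HaltsT T o n := by
  induction h with
  | nil => intro n _; exact .stop n
  | cons i p s s0 r r0 o h k v hv ih =>
    intro n hb
    have h1 : Rel (p, s, s0, r, r0, o) n k := by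
      by_contra hR
      exact hb ⟨[], i, n, k, v, _, h, rfl, hR, Or.inl rfl, ch_head hv⟩
    obtain ⟨t, e1, e2⟩ := h1
    simp only at e1 e2
    rw [e1]
    refine .step p s s0 r r0 o (mem_of_get h) t ?_
    rw [← e2]
    apply ih
    rintro ⟨U, i', n', k', V, t', ht', he, hR, hU, hV⟩
    refine hb ⟨rep n ++ (i + 1) :: U, i', n', k', V, t', ht', ?_, hR, Or.inr ?_, hV⟩
    · rw [he]; simp
    · rcases hU with rfl | ⟨u, j, rfl⟩
      · exact ⟨rep n, i, rfl⟩
      · exact ⟨rep n ++ (i + 1) :: u, j, by simp⟩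

/-- The machine halts from `(p0, x)` iff some word generated from `X x` by the second group of
productions is not generated from `A` by the first one. -/
theorem halts_iff {T : List Tr} (hT : Ok T) (p0 x : ℕ) : HaltsT T (some p0) x ↔
    ∃ w, Yld {r | R2 T p0 x r} [Sum.inl (.X x)] w ∧ ¬ Yld {r | R1 T r} [Sum.inl .A] w := by
  constructor
  · intro h
    obtain ⟨v, hv, hb⟩ := good_of_halts h
    refine ⟨rep x ++ v, yld_X hv x le_rfl, ?_⟩
    intro h1
    exact hb (R1_sound hT p0 h1).1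
  · rintro ⟨w, h1, h2⟩
    obtain ⟨v, rfl, hv⟩ := R2_sound p0 x h1
    apply halts_of_good hv
    intro hb
    refine h2 (yld_A hT hb ?_)
    rw [le_append]
    exact ⟨le_rep (by omega), ch_le hv⟩

end Pool.Agent.Q314.GF.Und
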