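import Pool.Agent.Q314.GF.Und

/-!
# Family equivalence of grammar forms is undecidable
-/

set_option autoImplicit false

namespace Pool.Agent.Q314.GF.Und

open Pool.Agent.Q314.GF Pool.Agent.H109R3.CF Pool.Agent.H502.PcSrc

/-- A fixed residue machine with an undecidable halting problem, in normal form. -/
theorem exists_tr' : ∃ (T : List Tr) (p0 : ℕ) (N : ℕ → ℕ), Ok T ∧ Computable N ∧
    ¬ ComputablePred (fun n => HaltsT T (some p0) (N n)) := by
  obtain ⟨Q, hQ, M, q0, N, _, hN, h⟩ := exists_sys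
  have hf : Finite (RS M) := inferInstance
  let _ : Fintype (RS M) := Fintype.ofFinite _
  let D : DM (RS M) (Bool × Bool) := dm M q0 0
  let e : RS M → ℕ := fun p => (Fintype.equivFin (RS M) p : ℕ)
  have he : Function.Injective e := by
    intro x y hxy
    exact (Fintype.equivFin (RS M)).injective (Fin.ext hxy)
  refine ⟨allT D e, e (.d1 q0 (z0 M)), fun n => 2 ^ N n, ?_, ?_, ?_⟩
  · intro t ht
    rw [mem_allT] at ht
    obtain ⟨p, hp⟩ := ht
    unfold trs at hp
    have hpr := (pr_prime (D.reg p)).two_le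
    rcases List.mem_cons.1 hp with rfl | hp
    · exact ⟨by simp only; omega, code_pos _⟩
    · obtain ⟨i, hi, rfl⟩ := List.mem_map.1 hp
      rw [List.mem_range] at hi
      refine ⟨by simp only; omega, ?_⟩
      simp only
      exact Nat.mul_lt_mul_of_pos_right (by omega) (code_pos _)
  · have h1 : Primrec (fun n : ℕ => 2 ^ n) := by
      have : Primrec₂ (fun _ n : ℕ => 2 ^ n) := by
        refine (Primrec.nat_rec (f := fun _ : ℕ => 1) (g := fun _ (p : ℕ × ℕ) => 2 * p.2)
          (Primrec.const 1) ?_).of_eq ?_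
        · exact (Primrec.nat_mul.comp (Primrec.const 2) (Primrec.snd.comp Primrec.snd))
        · intro a n
          induction n with
          | zero => rfl
          | succ n ih =>
            simp only at ih ⊢
            rw [ih, pow_succ]
            ring
      exact this.comp (Primrec.const 0) Primrec.id
    exact h1.to_comp.comp hN
  · intro hc
    apply h
    refine hc.of_eq ?_
    intro n
    have h1 := dm_halts_iff M q0 0 q0 (ini (N n))
    rw [← h1]
    have hcode : code (v4 (ini (N n) true) (ini (N n) false) 0 0) = 2 ^ N n := by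
      unfold code
      rw [Fintype.prod_prod_type]
      simp [v4, ini, pr]
    have hnn : ∀ j, 0 ≤ v4 (ini (N n) true : ℤ) (ini (N n) false : ℤ) 0 0 j := by
      rintro ⟨a, b⟩
      cases a <;> cases b <;> simp [v4]
    constructor
    · intro hh
      exact halts_of D e he _ _ hh (some (.d1 q0 (z0 M))) _ hnn rfl hcode.symm
    · rintro ⟨k, hk⟩
      have := of_halts D e k _ _ hnn hk
      rw [hcode] at this
      exact this

/-- code of a production -/
def cr (r : K × List (K ⊕ ℕ)) : ℕ × List (ℕ ⊕ ℕ) := (cd r.1, r.2.map (Sum.map cd id))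

theorem Fg_code (P : Set (K × List (K ⊕ ℕ))) (B : K) (g : ℕ → ℕ) (L : Set (List ℕ)) :
    Fg (cr '' P) (cd B) g L ↔ Fg P B g L := by
  constructor
  · intro h
    have hne : Nonempty K := ⟨K.S⟩
    have hinv : ∀ x, Function.invFun cd (cd x) = x := Function.leftInverse_invFun cd_inj
    have h2 := Fg.comp (P := P) (P' := cr '' P) (S' := cd B)
      (f := Function.invFun cd) (g := id)
      (S := B) (hinv B) (by
        rintro _ ⟨r, hr, rfl⟩
        have e : (r.2.map (Sum.map cd id)).map (Sum.map (Function.invFun cd) id) = r.2 := by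
          rw [List.map_map]
          conv_rhs => rw [← List.map_id r.2]
          apply List.map_congr_left
          intro x _
          cases x <;> simp [hinv]
        change (Function.invFun cd (cd r.1),
          (r.2.map (Sum.map cd id)).map (Sum.map (Function.invFun cd) id)) ∈ P
        rw [hinv, e]
        exact hr) h
    simpa using h2
  · intro h
    have h2 := Fg.comp (P := cr '' P) (P' := P) (S' := B) (f := cd) (g := id) (S := cd B) rfl
      (fun r hr => ⟨r, hr, rfl⟩) h
    simpa using h2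

variable (T : List Tr) (p0 : ℕ)

/-- the first grammar -/
noncomputable def G1 : Gram := (0, ((finite_R1 T).image cr).toFinset.toList)

/-- the fixed part of the second grammar -/
noncomputable def l3 : List (ℕ × List (ℕ ⊕ ℕ)) := ((finite_R3 T p0).image cr).toFinset.toList

/-- the second grammar -/
noncomputable def G2 (x : ℕ) : Gram :=
  (0, (0, [Sum.inr (T.length + 1), Sum.inl (5 * x + 14)]) ::
    ((List.range x).map (fun j => (5 * (j + 1) + 14, [Sum.inr 0, Sum.inl (5 * j + 14)])) ++
      ((G1 T).2 ++ l3 T p0)))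

theorem prods_G1 : (G1 T).prods = cr '' {r | R1 T r} := by
  ext r
  change r ∈ ((finite_R1 T).image cr).toFinset.toList ↔ _
  rw [Finset.mem_toList, Set.Finite.mem_toFinset]

theorem prods_G2 (x : ℕ) : (G2 T p0 x).prods = cr '' ({r | R1 T r} ∪ {r | R2 T p0 x r}) := by
  ext r
  change r ∈ (G2 T p0 x).2 ↔ _
  unfold G2
  simp only [List.mem_cons, List.mem_append, List.mem_map, List.mem_range]
  have h1 : r ∈ (G1 T).2 ↔ r ∈ cr '' {r | R1 T r} := by
    rw [← prods_G1]
    rfl
  have h3 : r ∈ l3 T p0 ↔ r ∈ cr '' {r | R3 T p0 r} := by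
    unfold l3
    rw [Finset.mem_toList, Set.Finite.mem_toFinset]
  rw [h1, h3]
  constructor
  · rintro (rfl | ⟨j, hj, rfl⟩ | ⟨r', hr', rfl⟩ | ⟨r', hr', rfl⟩)
    · exact ⟨_, Or.inr (R2.s (T := T) (p0 := p0) (x := x)), rfl⟩
    · exact ⟨_, Or.inr (R2.x1 (T := T) (p0 := p0) (x := x) j hj), rfl⟩
    · exact ⟨_, Or.inl hr', rfl⟩
    · exact ⟨_, Or.inr (R2.r3 (T := T) (p0 := p0) (x := x) hr'), rfl⟩
  · rintro ⟨r', hr' | hr', rfl⟩
    · right; right; left; exact ⟨r', hr', rfl⟩
    · cases hr' with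
      | s => left; rfl
      | x1 j hj => right; left; exact ⟨j, hj, rfl⟩
      | r3 h => right; right; right; exact ⟨_, h, rfl⟩

theorem inl_ra (B : K) (n : ℕ) : (Sum.inl B : K ⊕ ℕ) ∉ ra n := by
  intro h
  have := List.eq_of_mem_replicate h
  simp at this

/-- the nonterminals on the right-hand sides of the first grammar -/
theorem R1_rhs {r : K × List (K ⊕ ℕ)} (hr : R1 T r) {B : K} (hB : Sum.inl B ∈ r.2) :
    B ≠ .S ∧ (∀ o, B ≠ .Y o) ∧ ∀ j, B ≠ .X j := by
  cases hr <;>
    simp only [List.mem_cons, List.mem_append, List.mem_map, inl_ra, Sum.inl.injEq, reduceCtorEq,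
      List.not_mem_nil, or_false, false_or, and_false, exists_false] at hB <;>
    rcases hB with rfl | rfl | rfl <;> simp

theorem R1_lhs {r : K × List (K ⊕ ℕ)} (hr : R1 T r) : (∀ o, r.1 ≠ .Y o) ∧ ∀ j, r.1 ≠ .X j := by
  cases hr <;> simp

theorem R2_rhs (x : ℕ) {r : K × List (K ⊕ ℕ)} (hr : R2 T p0 x r) {B : K}
    (hB : Sum.inl B ∈ r.2) : (∃ o, B = .Y o) ∨ ∃ j, B = .X j := by
  cases hr with
  | s => simp at hB; right; exact ⟨_, hB⟩
  | x1 j hj => simp at hB; right; exact ⟨_, hB⟩
  | r3 h => cases h <;> simp at hB <;> left <;> exact ⟨_, hB⟩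

theorem R2_lhs (x : ℕ) {r : K × List (K ⊕ ℕ)} (hr : R2 T p0 x r) :
    r.1 = .S ∨ (∃ o, r.1 = .Y o) ∨ ∃ j, r.1 = .X j := by
  cases hr with
  | s => left; rfl
  | x1 j hj => right; right; exact ⟨_, rfl⟩
  | r3 h => cases h <;> simp

theorem R2_form (x : ℕ) {r : K × List (K ⊕ ℕ)} (hr : R2 T p0 x r) :
    (∃ y, r.2 = [Sum.inr y]) ∨ ∃ y Y, r.2 = [Sum.inr y, Sum.inl Y] := by
  cases hr with
  | s => right; exact ⟨_, _, rfl⟩
  | x1 j hj => right; exact ⟨_, _, rfl⟩
  | r3 h => cases h <;> simp

theorem family_eq (x : ℕ)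
    (h : ∀ w, Yld {r | R2 T p0 x r} [Sum.inl (.X x)] w → Yld {r | R1 T r} [Sum.inl .A] w) :
    Family (G1 T) = Family (G2 T p0 x) := by
  have e1 : (G1 T).1 = cd .S := rfl
  have e2 : (G2 T p0 x).1 = cd .S := rfl
  ext L
  rw [mem_family_iff, mem_family_iff, prods_G1, prods_G2, e1, e2]
  constructor
  · rintro ⟨g, hg⟩
    exact ⟨g, hg.mono (Set.image_mono Set.subset_union_left)⟩
  · rintro ⟨g, hg⟩
    rw [Fg_code] at hg
    refine ⟨g, (Fg_code _ _ _ _).2 (absorb (finite_R1 T) (fun r hr => R2_form T p0 x hr)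
      ?_ ?_ ?_ hg)⟩
    · intro r hr B hB r' hr' he
      have h1 := R1_rhs T hr hB
      rcases R2_lhs T p0 x hr' with h2 | ⟨o, h2⟩ | ⟨j, h2⟩
      · exact h1.1 (he.symm.trans h2)
      · exact h1.2.1 o (he.symm.trans h2)
      · exact h1.2.2 j (he.symm.trans h2)
    · intro r hr B hB r' hr' he
      have h1 := R1_lhs T hr'
      rcases R2_rhs T p0 x hr hB with ⟨o, h2⟩ | ⟨j, h2⟩
      · exact h1.1 o (he.trans h2)
      · exact h1.2 j (he.trans h2)
    · intro w hw
      obtain ⟨γ, hγ, hy⟩ := yld_single.1 (mem_Lg.1 hw)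
      have hγ' : R2 T p0 x (.S, γ) := hγ
      cases hγ' with
      | s =>
        cases hy with
        | ter _ hz =>
          exact mem_Lg.2 (yld_rule (P := {r | R1 T r}) (R1.start (T := T)) (.ter _ (h _ hz)))
      | r3 h3 => cases h3

theorem family_ne (hT : Ok T) (x : ℕ)
    (h : ∃ w, Yld {r | R2 T p0 x r} [Sum.inl (.X x)] w ∧ ¬ Yld {r | R1 T r} [Sum.inl .A] w) :
    Family (G1 T) ≠ Family (G2 T p0 x) := by
  intro he
  have e1 : (G1 T).1 = cd .S := rfl
  have e2 : (G2 T p0 x).1 = cd .S := rfl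
  -- the language of the second grammar
  have hself : ∃ g, Fg (G2 T p0 x).prods (G2 T p0 x).1 g (Lg (G2 T p0 x).prods (G2 T p0 x).1) := by
    refine ⟨id, ℕ, inferInstance, (G2 T p0 x).prods, (G2 T p0 x).1, id,
      (G2 T p0 x).2.finite_toSet, rfl, ?_, rfl⟩
    intro r hr
    simpa using hr
  rw [← mem_family_iff, ← he, mem_family_iff, prods_G1, prods_G2, e1, e2] at hself
  obtain ⟨g, hg⟩ := hself
  rw [Fg_code] at hg
  have hL : Lg (cr '' ({r | R1 T r} ∪ {r | R2 T p0 x r})) (cd .S) =
      Lg ({r | R1 T r} ∪ {r | R2 T p0 x r}) .S := Lg_image cd_inj _ _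
  rw [hL] at hg
  obtain ⟨N', _, P', S', f, _, a2, a3, a4⟩ := hg
  have hmap : ∀ w ∈ Lg ({r | R1 T r} ∪ {r | R2 T p0 x r}) K.S, w.map g ∈ Lg {r | R1 T r} K.S := by
    intro w hw
    rw [← a4] at hw
    have := Yld.map (P := {r | R1 T r}) (f := f) (g := g) a3 (mem_Lg.1 hw)
    rw [mem_Lg, ← a2]
    exact this
  -- words of the first grammar
  have hwords : ∀ w, Yld {r | R1 T r} [Sum.inl K.S] w →
      (∃ w', w = (T.length + 1) :: w' ∧ Yld {r | R1 T r} [Sum.inl K.A] w') ∨
      w = (T.length + 1) :: (T.length + 1) :: List.range (T.length + 1) := by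
    intro w hw
    obtain ⟨γ, hγ, hy⟩ := yld_single.1 hw
    have hγ' : R1 T (.S, γ) := hγ
    cases hγ' with
    | start =>
      cases hy with
      | ter _ hz => left; exact ⟨_, rfl, hz⟩
    | rigid =>
      right
      have : Yld {r | R1 T r} (((T.length + 1) :: (T.length + 1) ::
          List.range (T.length + 1)).map Sum.inr) w := hy
      exact this.terminal_inv
  have hA : ∀ w', Yld {r | R1 T r} [Sum.inl K.A] w' → Le (T.length + 1) w' := fun w' hw' =>
    (R1_sound hT p0 hw').2
  -- the morphism is the identity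
  have hrig : Yld ({r | R1 T r} ∪ {r | R2 T p0 x r}) [Sum.inl K.S]
      ((T.length + 1) :: (T.length + 1) :: List.range (T.length + 1)) := by
    refine yld_single.2 ⟨_, Or.inl (R1.rigid (T := T)), ?_⟩
    exact yld_terminal ((T.length + 1) :: (T.length + 1) :: List.range (T.length + 1))
  have h1 := hwords _ (mem_Lg.1 (hmap _ (mem_Lg.2 hrig)))
  have h2 : ((T.length + 1) :: (T.length + 1) :: List.range (T.length + 1)).map g =
      (T.length + 1) :: (T.length + 1) :: List.range (T.length + 1) := by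
    rcases h1 with ⟨w', h1, h3⟩ | h1
    · exfalso
      simp only [List.map_cons, List.cons.injEq] at h1
      obtain ⟨h4, h5⟩ := h1
      have h6 := hA w' h3
      rw [← h5, le_cons, h4] at h6
      omega
    · exact h1
  simp only [List.map_cons, List.cons.injEq] at h2
  obtain ⟨h4, _, h5⟩ := h2
  have h6 : ∀ y < T.length + 1, g y = y := by
    intro y hy
    have h7 : (List.range (T.length + 1)).map g = (List.range (T.length + 1)).map id := by
      rw [h5, List.map_id]
    exact List.map_inj_left.1 h7 y (List.mem_range.2 hy)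
  obtain ⟨w, hw1, hw2⟩ := h
  have hle : Le (T.length + 1) w := by
    obtain ⟨v, rfl, hv⟩ := R2_sound p0 x hw1
    rw [le_append]
    exact ⟨le_rep (by omega), ch_le hv⟩
  have hwS : Yld ({r | R1 T r} ∪ {r | R2 T p0 x r}) [Sum.inl K.S] ((T.length + 1) :: w) := by
    refine yld_single.2 ⟨_, Or.inr (R2.s (T := T) (p0 := p0) (x := x)), .ter _ ?_⟩
    exact hw1.mono Set.subset_union_right
  have h8 := mem_Lg.1 (hmap _ (mem_Lg.2 hwS))
  have h9 : ((T.length + 1) :: w).map g = (T.length + 1) :: w := by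
    rw [List.map_cons, h4]
    congr 1
    conv_rhs => rw [← List.map_id w]
    exact List.map_inj_left.2 fun y hy => h6 y (hle y hy)
  rw [h9] at h8
  rcases hwords _ h8 with ⟨w', h1, h3⟩ | h1
  · simp only [List.cons.injEq, true_and] at h1
    subst h1
    exact hw2 h3
  · simp only [List.cons.injEq, true_and] at h1
    rw [h1, le_cons] at hle
    omega

theorem G1_lambdaFree : (G1 T).LambdaFree := by
  intro r hr
  have hr' : r ∈ (G1 T).prods := hr
  rw [prods_G1] at hr'
  obtain ⟨r', hr', rfl⟩ := hr'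
  have hr'' : R1 T r' := hr'
  cases hr'' <;> simp [cr]

theorem G2_lambdaFree (x : ℕ) : (G2 T p0 x).LambdaFree := by
  intro r hr
  have hr' : r ∈ (G2 T p0 x).prods := hr
  rw [prods_G2] at hr'
  obtain ⟨r', hr' | hr', rfl⟩ := hr'
  · have hr'' : R1 T r' := hr'
    cases hr'' <;> simp [cr]
  · rcases R2_form T p0 x hr' with ⟨y, h⟩ | ⟨y, Y, h⟩ <;> simp [cr, h]

theorem G2_computable : Computable (G2 T p0) := by
  have h1 : Primrec (fun x : ℕ => (5 * x + 14 : ℕ)) :=
    Primrec.nat_add.comp (Primrec.nat_mul.comp (Primrec.const 5) Primrec.id) (Primrec.const 14)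
  have h2 : Primrec (fun x : ℕ =>
      ((0, [Sum.inr (T.length + 1), Sum.inl (5 * x + 14)]) : ℕ × List (ℕ ⊕ ℕ))) :=
    Primrec.pair (Primrec.const 0) (Primrec.list_cons.comp (Primrec.const _)
      (Primrec.list_cons.comp (Primrec.sumInl.comp h1) (Primrec.const [])))
  have h3 : Primrec (fun j : ℕ =>
      ((5 * (j + 1) + 14, [Sum.inr 0, Sum.inl (5 * j + 14)]) : ℕ × List (ℕ ⊕ ℕ))) :=
    Primrec.pair (h1.comp Primrec.succ) (Primrec.list_cons.comp (Primrec.const _)
      (Primrec.list_cons.comp (Primrec.sumInl.comp h1) (Primrec.const [])))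
  have h4 : Primrec (fun x : ℕ => (List.range x).map (fun j =>
      ((5 * (j + 1) + 14, [Sum.inr 0, Sum.inl (5 * j + 14)]) : ℕ × List (ℕ ⊕ ℕ)))) :=
    Primrec.list_map Primrec.list_range (h3.comp Primrec.snd).to₂
  have h5 : Primrec (G2 T p0) :=
    Primrec.pair (Primrec.const 0) (Primrec.list_cons.comp h2
      (Primrec.list_append.comp h4 (Primrec.const _)))
  exact h5.to_comp

end Pool.Agent.Q314.GF.Und

namespace Pool.Agent.Q314.GF

open Pool.Agent.Q314.GF.Und Pool.Agent.H109R3.CF

/-- Family equivalence with a certain fixed context-free grammar is undecidable. -/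
theorem undecidable_fixed : ∃ G₁ : Gram, G₁.LambdaFree ∧ ¬ ∃ c : Gram → Bool, Computable c ∧
    ∀ G₂ : Gram, G₂.LambdaFree → (c G₂ = true ↔ Family G₁ = Family G₂) := by
  obtain ⟨T, p0, N, hT, hN, hund⟩ := exists_tr'
  refine ⟨G1 T, G1_lambdaFree T, ?_⟩
  rintro ⟨c, hc, h⟩
  apply hund
  have h1 : ∀ n, HaltsT T (some p0) (N n) ↔ ¬ (c (G2 T p0 (N n)) = true) := by
    intro n
    rw [h _ (G2_lambdaFree T p0 _), halts_iff hT]
    constructor
    · intro hex
      exact family_ne T p0 hT _ hex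
    · intro hne
      by_contra hex
      push Not at hex
      exact hne (family_eq T p0 _ hex)
  have h2 : Computable (fun n => c (G2 T p0 (N n))) := hc.comp ((G2_computable T p0).comp hN)
  have h3 : ComputablePred (fun n => ¬ (c (G2 T p0 (N n)) = true)) := by
    apply ComputablePred.not
    exact ⟨inferInstance, by simpa using h2⟩
  exact h3.of_eq fun n => (h1 n).symm

end Pool.Agent.Q314.GF
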